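import Mathlib

/-!
# Project TR, module Ari: arithmetic

`n = h u`: `1 + (n + 1) (h - 1) = h (u (h - 1) + 1)` divides `h ^ 2 u ^ 2`, so `u (h - 1) + 1` divides `h u ^ 2`, it is prime to `u`, so it
divides `h`: `u (h - 1) + 1 ≤ h`, `u ≤ 1` as `h ≥ 2`.
-/

set_option autoImplicit false

namespace Pool.Agent.H37.TR

theorem ari {n h : ℕ} (hn : 1 ≤ n) (hh : 2 ≤ h) (h1 : h ∣ n) (h2 : 1 + (n + 1) * (h - 1) ∣ n ^ 2) : h = n := by
  obtain ⟨u, rfl⟩ := h1
  obtain ⟨g, rfl⟩ : ∃ g, h = g + 2 := ⟨h - 2, by omega⟩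
  have hg : g + 2 - 1 = g + 1 := by omega
  rw [hg] at h2
  have hu : 1 ≤ u := by
    rcases Nat.eq_zero_or_pos u with h0 | h0
    · rw [h0, mul_zero] at hn
      omega
    · exact h0
  have e1 : 1 + ((g + 2) * u + 1) * (g + 1) = (g + 2) * (u * (g + 1) + 1) := by ring
  have e2 : ((g + 2) * u) ^ 2 = (g + 2) * ((g + 2) * u ^ 2) := by ring
  rw [e1, e2] at h2
  have h3 : u * (g + 1) + 1 ∣ (g + 2) * u ^ 2 := Nat.dvd_of_mul_dvd_mul_left (by omega) h2
  have h4 : Nat.Coprime (u * (g + 1) + 1) u := by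
    rw [Nat.mul_comm u (g + 1), Nat.coprime_mul_right_add_left]
    exact Nat.coprime_one_left u
  have h5 : u * (g + 1) + 1 ∣ g + 2 := (h4.pow_right 2).dvd_of_dvd_mul_right h3
  have h6 := Nat.le_of_dvd (by omega) h5
  have h7 : u ≤ 1 := by
    by_contra hcon
    have h8 : 2 * (g + 1) ≤ u * (g + 1) := Nat.mul_le_mul_right _ (by omega)
    omega
  have h9 : u = 1 := by omega
  rw [h9, mul_one]

/-- a number with only one prime divisor is a prime power -/
theorem ppow {n : ℕ} (hn : 2 ≤ n) (h : ∀ p r : ℕ, p.Prime → r.Prime → p ∣ n → r ∣ n → p = r) :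
    ∃ p k : ℕ, p.Prime ∧ n = p ^ k := by
  have hp : n.minFac.Prime := Nat.minFac_prime (by omega)
  refine ⟨n.minFac, n.primeFactorsList.length, hp, ?_⟩
  exact Nat.eq_prime_pow_of_unique_prime_dvd (by omega)
    (fun hd hdn => h _ _ hd hp hdn (Nat.minFac_dvd n))

end Pool.Agent.H37.TR
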