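import Pool.Agent.H37.TR.Defs

/-!
# Project TR, module Axc: a collineation with an axis has a center, and dually

`center_of_axis`: all points of `l` are fixed.  If `x` fixes a point `C` off `l`, all lines through `C` are fixed (they contain `C` and
their point on `l`).  If `x` fixes no point off `l`: for `Q` off `l` the line `m` through `Q` and `x Q` is fixed (it contains the fixed
point `m ∩ l` and `x Q`, both on `x m`).  Two different lines of this kind meet in a fixed point, which is on `l`: so all of them
pass through one point `C` of `l`, and every line `≠ l` through `C` is one of them (take a point `Q` of it off `l`).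
`axis_of_center` is the dual statement: apply `center_of_axis` to `Configuration.Dual L`, `Configuration.Dual P` (or copy the proof).
-/

set_option autoImplicit false

open Configuration

namespace Pool.Agent.H37.TR

variable {P L : Type} [Membership P L] [Finite P] [Finite L] [ProjectivePlane P L]

private theorem Axc_two (m : L) (p : P) : ∃ q : P, q ∈ m ∧ q ≠ p := by
  have h : 2 < Nat.card {p : P // p ∈ m} := ProjectivePlane.two_lt_pointCount (P := P) m
  have h2 : Nontrivial {p : P // p ∈ m} := by
    rw [← Finite.one_lt_card_iff_nontrivial]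
    omega
  by_contra hc
  push Not at hc
  obtain ⟨a, b, hab⟩ := h2
  apply hab
  apply Subtype.ext
  rw [hc a.1 a.2, hc b.1 b.2]

theorem center_of_axis {x : PP P L} (hx : IsCol x) {l : L} (h : ∀ p : P, p ∈ l → x.1 p = p) : ∃ C : P, Per x C l := by
  -- a line through a point and its image meeting `l` in a fixed point
  by_cases hA : ∃ C : P, C ∉ l ∧ x.1 C = C
  · obtain ⟨C, hC, hCx⟩ := hA
    refine ⟨C, h, fun m hm => ?_⟩
    have hml : m ≠ l := by
      rintro rfl
      exact hC hm
    obtain ⟨p, ⟨hp1, hp2⟩, -⟩ := HasPoints.existsUnique_point P L m l hml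
    have hpC : p ≠ C := by
      rintro rfl
      exact hC hp2
    have h1 : p ∈ x.2 m := by
      have := (hx p m).2 hp1
      rwa [h p hp2] at this
    have h2 : C ∈ x.2 m := by
      have := (hx C m).2 hm
      rwa [hCx] at this
    exact ((Nondegenerate.eq_or_eq h1 h2 hp1 hm).resolve_left hpC)
  · push Not at hA
    -- the axis itself is fixed
    have hl : x.2 l = l := by
      obtain ⟨o, -⟩ := Nondegenerate.exists_point (P := P) l
      obtain ⟨p, hp, -⟩ := Axc_two l o
      obtain ⟨q, hq, hqp⟩ := Axc_two l p
      have h1 : p ∈ x.2 l := by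
        have := (hx p l).2 hp
        rwa [h p hp] at this
      have h2 : q ∈ x.2 l := by
        have := (hx q l).2 hq
        rwa [h q hq] at this
      exact (Nondegenerate.eq_or_eq h2 h1 hq hp).resolve_left hqp
    have key : ∀ Q : P, Q ∉ l → ∃ m : L, Q ∈ m ∧ m ≠ l ∧ x.2 m = m := by
      intro Q hQ
      have hQx : Q ≠ x.1 Q := fun e => hA Q hQ e.symm
      have hxQ : x.1 Q ∉ l := by
        intro e
        exact hQ ((x.1.injective (h _ e)) ▸ e)
      obtain ⟨m, ⟨hm1, hm2⟩, -⟩ := HasLines.existsUnique_line P L Q (x.1 Q) hQx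
      have hml : m ≠ l := by
        rintro rfl
        exact hQ hm1
      refine ⟨m, hm1, hml, ?_⟩
      obtain ⟨p, ⟨hp1, hp2⟩, -⟩ := HasPoints.existsUnique_point P L m l hml
      have hpx : p ≠ x.1 Q := by
        rintro rfl
        exact hxQ hp2
      have h1 : p ∈ x.2 m := by
        have := (hx p m).2 hp1
        rwa [h p hp2] at this
      have h2 : x.1 Q ∈ x.2 m := (hx Q m).2 hm1
      exact (Nondegenerate.eq_or_eq h1 h2 hp1 hm2).resolve_left hpx
    obtain ⟨Q₀, hQ₀⟩ := Nondegenerate.exists_point (P := P) l
    obtain ⟨m₀, hQm₀, hm₀l, hm₀⟩ := key Q₀ hQ₀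
    obtain ⟨C, ⟨hC1, hC2⟩, -⟩ := HasPoints.existsUnique_point P L m₀ l hm₀l
    refine ⟨C, h, fun m hm => ?_⟩
    by_cases hml : m = l
    · rw [hml, hl]
    · obtain ⟨Q, hQm, hQC⟩ := Axc_two m C
      have hQl : Q ∉ l := by
        intro e
        rcases Nondegenerate.eq_or_eq hQm hm e hC2 with h1 | h1
        · exact hQC h1
        · exact hml h1
      obtain ⟨m', hQm', hm'l, hm'⟩ := key Q hQl
      have hCm' : C ∈ m' := by
        by_cases hmm : m' = m₀
        · rw [hmm]
          exact hC1
        · obtain ⟨R, ⟨hR1, hR2⟩, -⟩ := HasPoints.existsUnique_point P L m' m₀ hmm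
          have hR3 : x.1 R ∈ m' := by
            have := (hx R m').2 hR1
            rwa [hm'] at this
          have hR4 : x.1 R ∈ m₀ := by
            have := (hx R m₀).2 hR2
            rwa [hm₀] at this
          have hRx : x.1 R = R :=
            (Nondegenerate.eq_or_eq hR3 hR1 hR4 hR2).resolve_right hmm
          have hRl : R ∈ l := by
            by_contra e
            exact hA R e hRx
          have hRC : R = C :=
            (Nondegenerate.eq_or_eq hR2 hC1 hRl hC2).resolve_right hm₀l
          rw [← hRC]
          exact hR1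
      have hmm' : m = m' := (Nondegenerate.eq_or_eq hQm hm hQm' hCm').resolve_left hQC
      rw [hmm', hm']

theorem axis_of_center {x : PP P L} (hx : IsCol x) {C : P} (h : ∀ m : L, C ∈ m → x.2 m = m) : ∃ l : L, Per x C l := by
  let y : PP (Dual L) (Dual P) := (x.2, x.1)
  have hy : IsCol y := fun p l => hx l p
  obtain ⟨l, hl1, hl2⟩ := center_of_axis (P := Dual L) (L := Dual P) (x := y) hy (l := C) h
  exact ⟨l, hl2, hl1⟩

end Pool.Agent.H37.TR
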