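import Pool.Agent.H37.TR.Defs

/-!
# Project TR, module Bas: basic facts on perspectivities

`eq_one`: a collineation which fixes all points is `1` (`Pool.Agent.H12.ST.line_ext`).  `conj`: transport of center and axis.
`fix`: if `x ≠ 1` fixes `p` off the axis and `p ≠ C`, then `x` fixes all the lines through `p` (through their points on the axis),
so it fixes every point off the line `p C` (meet of two fixed lines) and then all points.  `fixl` is dual: a fixed line `m ≠ l`
not through `C`: all its points are fixed (meets with the lines through `C`), take a point `p` of `m` off `l`: contradiction to `fix`.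
`uniq`: by `fix`, `fixl`.
-/

set_option autoImplicit false

open Configuration

namespace Pool.Agent.H37.TR

variable {P L : Type} [Membership P L]

theorem conj {x y : PP P L} {C : P} {l : L} (hy : IsCol y) (hx : Per x C l) :
    Per (y * x * y⁻¹) (y.1 C) (y.2 l) := by
  constructor
  · intro p hp
    obtain ⟨q, rfl⟩ := y.1.surjective p
    have hq : q ∈ l := (hy q l).1 hp
    show y.1 (x.1 (y.1.symm (y.1 q))) = y.1 q
    rw [Equiv.symm_apply_apply, hx.1 q hq]
  · intro m hm
    obtain ⟨k, rfl⟩ := y.2.surjective m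
    have hk : C ∈ k := (hy C k).1 hm
    show y.2 (x.2 (y.2.symm (y.2 k))) = y.2 k
    rw [Equiv.symm_apply_apply, hx.2 k hk]

variable [Finite P] [Finite L] [ProjectivePlane P L]

/-- a line has a third point -/
private theorem bas_third (m : L) (r q : P) : ∃ s : P, s ∈ m ∧ s ≠ r ∧ s ≠ q := by
  classical
  by_contra hc
  push Not at hc
  have h1 := ProjectivePlane.two_lt_pointCount (P := P) (l := m)
  have h2 : pointCount P m ≤ 2 := by
    unfold pointCount
    have h3 : {p : P | p ∈ m} ⊆ ({r, q} : Set P) := by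
      intro s hs
      by_cases h : s = r
      · exact Or.inl h
      · exact Or.inr (hc s hs h)
    calc Nat.card {p : P // p ∈ m} = Set.ncard {p : P | p ∈ m} := rfl
      _ ≤ Set.ncard ({r, q} : Set P) := Set.ncard_le_ncard h3 (Set.toFinite _)
      _ ≤ 2 := by
          refine (Set.ncard_insert_le _ _).trans ?_
          rw [Set.ncard_singleton]
  omega

/-- a point is on a third line -/
private theorem bas_third' (p : P) (r q : L) : ∃ s : L, p ∈ s ∧ s ≠ r ∧ s ≠ q := by
  classical
  by_contra hc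
  push Not at hc
  have h1 := ProjectivePlane.two_lt_lineCount (L := L) (p := p)
  have h2 : lineCount L p ≤ 2 := by
    unfold lineCount
    have h3 : {l : L | p ∈ l} ⊆ ({r, q} : Set L) := by
      intro s hs
      by_cases h : s = r
      · exact Or.inl h
      · exact Or.inr (hc s hs h)
    calc Nat.card {l : L // p ∈ l} = Set.ncard {l : L | p ∈ l} := rfl
      _ ≤ Set.ncard ({r, q} : Set L) := Set.ncard_le_ncard h3 (Set.toFinite _)
      _ ≤ 2 := by
          refine (Set.ncard_insert_le _ _).trans ?_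
          rw [Set.ncard_singleton]
  omega

omit [Finite P] [Finite L] in
/-- a line with two fixed points is fixed -/
private theorem bas_line {x : PP P L} (hx : IsCol x) {p q : P} (hpq : p ≠ q) {m : L} (hp : p ∈ m) (hq : q ∈ m)
    (hp' : x.1 p = p) (hq' : x.1 q = q) : x.2 m = m := by
  have h1 : p ∈ x.2 m := by
    have := (hx p m).2 hp
    rwa [hp'] at this
  have h2 : q ∈ x.2 m := by
    have := (hx q m).2 hq
    rwa [hq'] at this
  rcases Nondegenerate.eq_or_eq h1 h2 hp hq with h | h
  · exact absurd h hpq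
  · exact h

omit [Finite P] [Finite L] in
/-- a point on two fixed lines is fixed -/
private theorem bas_point {x : PP P L} (hx : IsCol x) {m k : L} (hmk : m ≠ k) {p : P} (hp : p ∈ m) (hq : p ∈ k)
    (hm : x.2 m = m) (hk : x.2 k = k) : x.1 p = p := by
  have h1 : x.1 p ∈ m := by
    have := (hx p m).2 hp
    rwa [hm] at this
  have h2 : x.1 p ∈ k := by
    have := (hx p k).2 hq
    rwa [hk] at this
  rcases Nondegenerate.eq_or_eq h1 hp h2 hq with h | h
  · exact h
  · exact absurd h hmk

theorem eq_one {x : PP P L} (hx : IsCol x) (h : ∀ p, x.1 p = p) : x = 1 := by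
  refine Prod.ext (Equiv.ext fun p => h p) (Equiv.ext fun m => ?_)
  obtain ⟨p0, -⟩ := Nondegenerate.exists_point (P := P) m
  obtain ⟨p, hp, -, -⟩ := bas_third m p0 p0
  obtain ⟨q, hq, hqp, -⟩ := bas_third m p p
  exact bas_line hx hqp hq hp (h q) (h p)

theorem eq_one' {x : PP P L} (hx : IsCol x) (h : ∀ l, x.2 l = l) : x = 1 := by
  refine eq_one hx fun p => ?_
  obtain ⟨l0, -⟩ := Nondegenerate.exists_line (L := L) p
  obtain ⟨m, hm, -, -⟩ := bas_third' p l0 l0
  obtain ⟨k, hk, hkm, -⟩ := bas_third' p m m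
  exact bas_point hx hkm hk hm (h k) (h m)

/-- the fixed points of a perspectivity -/
theorem fix {x : PP P L} {C : P} {l : L} (hx : IsCol x) (h1 : x ≠ 1) (h : Per x C l) {p : P} (hp : x.1 p = p) :
    p ∈ l ∨ p = C := by
  by_contra hc
  push Not at hc
  obtain ⟨hpl, hpC⟩ := hc
  -- the lines through `p`
  have s1 : ∀ m : L, p ∈ m → x.2 m = m := by
    intro m hm
    have hml : m ≠ l := fun h0 => hpl (h0 ▸ hm)
    have ha := HasPoints.mkPoint_ax (P := P) hml
    have hne : p ≠ HasPoints.mkPoint hml := by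
      intro h0
      rw [← h0] at ha
      exact hpl ha.2
    exact bas_line hx hne hm ha.1 hp (h.1 _ ha.2)
  obtain ⟨hk1, hk2⟩ := HasLines.mkLine_ax (L := L) hpC
  set k : L := HasLines.mkLine hpC with hk
  -- the points off `k`
  have s2 : ∀ r : P, r ∉ k → x.1 r = r := by
    intro r hr
    have hrp : r ≠ p := fun h0 => hr (h0 ▸ hk1)
    have hrC : r ≠ C := fun h0 => hr (h0 ▸ hk2)
    obtain ⟨ha, hb⟩ := HasLines.mkLine_ax (L := L) hrp
    obtain ⟨hc, hd⟩ := HasLines.mkLine_ax (L := L) hrC
    refine bas_point hx (fun h0 => ?_) ha hc (s1 _ hb) (h.2 _ hd)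
    rw [← h0] at hd
    rcases Nondegenerate.eq_or_eq hb hd hk1 hk2 with h2 | h2
    · exact hpC h2
    · exact hr (h2 ▸ ha)
  refine h1 (eq_one hx fun r => ?_)
  by_cases hr : r ∈ k
  · obtain ⟨m, hm, hmk, -⟩ := bas_third' r k k
    obtain ⟨q, hq, hqr, -⟩ := bas_third m r r
    obtain ⟨s, hs, hsr, hsq⟩ := bas_third m r q
    have hoff : ∀ t : P, t ∈ m → t ≠ r → t ∉ k := by
      intro t ht htr htk
      rcases Nondegenerate.eq_or_eq ht hm htk hr with h2 | h2
      · exact htr h2
      · exact hmk h2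
    exact bas_point hx hmk hm hr (bas_line hx hsq hs hq (s2 s (hoff s hs hsr)) (s2 q (hoff q hq hqr))) (s1 k hk1)
  · exact s2 r hr

/-- the fixed lines of a perspectivity -/
theorem fixl {x : PP P L} {C : P} {l : L} (hx : IsCol x) (h1 : x ≠ 1) (h : Per x C l) {m : L} (hm : x.2 m = m) :
    C ∈ m ∨ m = l := by
  by_contra hc
  push Not at hc
  obtain ⟨hCm, hml⟩ := hc
  obtain ⟨ha, hb⟩ := HasPoints.mkPoint_ax (P := P) hml
  obtain ⟨p, hp, hpq, -⟩ := bas_third m (HasPoints.mkPoint hml) (HasPoints.mkPoint hml)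
  have hpC : p ≠ C := fun h0 => hCm (h0 ▸ hp)
  have hpl : p ∉ l := by
    intro h0
    rcases Nondegenerate.eq_or_eq hp ha h0 hb with h2 | h2
    · exact hpq h2
    · exact hml h2
  obtain ⟨hc1, hc2⟩ := HasLines.mkLine_ax (L := L) hpC
  have hne : HasLines.mkLine hpC ≠ m := by
    intro h0
    rw [h0] at hc2
    exact hCm hc2
  have hpf : x.1 p = p := bas_point hx hne hc1 hp (h.2 _ hc2) hm
  rcases fix hx h1 h hpf with h2 | h2
  · exact hpl h2
  · exact hpC h2

/-- center and axis are unique -/
theorem uniq {x : PP P L} {C D : P} {l m : L} (hx : IsCol x) (h1 : x ≠ 1) (h : Per x C l) (h' : Per x D m) :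
    C = D ∧ l = m := by
  constructor
  · by_contra hCD
    obtain ⟨ha, hb⟩ := HasLines.mkLine_ax (L := L) hCD
    obtain ⟨k, hk, hk1, hk2⟩ := bas_third' D (HasLines.mkLine hCD) l
    rcases fixl hx h1 h (h'.2 k hk) with h2 | h2
    · rcases Nondegenerate.eq_or_eq h2 hk ha hb with h3 | h3
      · exact hCD h3
      · exact hk1 h3
    · exact hk2 h2
  · by_contra hlm
    obtain ⟨ha, hb⟩ := HasPoints.mkPoint_ax (P := P) hlm
    obtain ⟨p, hp, hp1, hp2⟩ := bas_third m (HasPoints.mkPoint hlm) C
    rcases fix hx h1 h (h'.1 p hp) with h2 | h2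
    · rcases Nondegenerate.eq_or_eq h2 ha hp hb with h3 | h3
      · exact hp1 h3
      · exact hlm h3
    · exact hp2 h2

end Pool.Agent.H37.TR
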