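import Pool.Agent.H37.TR.Defs

/-!
# Project TR, module Cv: from actions to groups of collineations

`G' = ((MulAction.toPermHom G P).prod (MulAction.toPermHom G L)).range`; line transitivity: `Pool.Agent.H12.ST.trans_lines`.
-/

set_option autoImplicit false

open Configuration

namespace Pool.Agent.H37.TR

variable {P L : Type} [Membership P L] [Finite P] [Finite L] [ProjectivePlane P L]

private theorem Cv_two (l : L) : ∃ p q : P, p ≠ q ∧ p ∈ l ∧ q ∈ l := by
  have h := ProjectivePlane.two_lt_pointCount (P := P) l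
  have : Nontrivial {p : P // p ∈ l} := by
    apply Finite.one_lt_card_iff_nontrivial.1
    unfold pointCount at h
    omega
  obtain ⟨⟨p, hp⟩, ⟨q, hq⟩, h⟩ := exists_pair_ne {p : P // p ∈ l}
  exact ⟨p, q, fun e => h (Subtype.ext e), hp, hq⟩

theorem exists_pt (G : Type) [Group G] [MulAction G P] [MulAction G L]
    (hm : ∀ (g : G) (p : P) (l : L), g • p ∈ g • l ↔ p ∈ l) (ht : ∀ p q : P, ∃ g : G, g • p = q)
    {g : G} (h1 : ∃ p : P, g • p ≠ p) (h2 : ∀ p : P, g • g • p = p) :
    ∃ (G' : Subgroup (PP P L)) (x : PP P L), PT G' ∧ x ∈ G' ∧ x ≠ 1 ∧ x * x = 1 := by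
  let φ : G →* PP P L := (MulAction.toPermHom G P).prod (MulAction.toPermHom G L)
  have hφ1 : ∀ (g : G) (p : P), (φ g).1 p = g • p := fun _ _ => rfl
  have hφ2 : ∀ (g : G) (l : L), (φ g).2 l = g • l := fun _ _ => rfl
  have : MulAction.IsPretransitive G P := ⟨ht⟩
  have hL : MulAction.IsPretransitive G L := Pool.Agent.H12.ST.trans_lines G hm
  refine ⟨φ.range, φ g, ⟨?_, ?_, ?_⟩, ⟨g, rfl⟩, ?_, ?_⟩
  · rintro x ⟨a, rfl⟩ p l
    rw [hφ1, hφ2]
    exact hm a p l
  · intro p q
    obtain ⟨a, ha⟩ := ht p q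
    exact ⟨φ a, ⟨a, rfl⟩, ha⟩
  · intro l m
    obtain ⟨a, ha⟩ := MulAction.exists_smul_eq G l m
    exact ⟨φ a, ⟨a, rfl⟩, ha⟩
  · intro h
    obtain ⟨p, hp⟩ := h1
    apply hp
    rw [← hφ1, h]
    rfl
  · refine Prod.ext ?_ ?_
    · ext p
      exact h2 p
    · ext l
      show g • g • l = l
      obtain ⟨p, q, hpq, hp, hq⟩ := Cv_two (P := P) l
      have hp' : p ∈ g • g • l := by
        have := (hm g (g • p) (g • l)).2 ((hm g p l).2 hp)
        rwa [h2] at this
      have hq' : q ∈ g • g • l := by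
        have := (hm g (g • q) (g • l)).2 ((hm g q l).2 hq)
        rwa [h2] at this
      exact (Nondegenerate.eq_or_eq hp' hq' hp hq).resolve_left hpq

end Pool.Agent.H37.TR
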