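import Pool.Agent.H12.ST.Pln

/-!
# Project TR (point-transitive projective planes, groups of even order): definitions

A collineation is a pair `x` of permutations of the points and of the lines which preserves the incidence (`IsCol`).
`Per x C l`: `x` has the center `C` and the axis `l` (`x = 1` is allowed).  `PT G`: `G` is a group of collineations which is
transitive on the points and on the lines.
-/

set_option autoImplicit false

open Configuration

namespace Pool.Agent.H37.TR

/-- pairs of permutations of the points and of the lines -/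
abbrev PP (P L : Type) : Type := Equiv.Perm P × Equiv.Perm L

section

variable {P L : Type} [Membership P L]

/-- collineations -/
def IsCol (x : PP P L) : Prop := ∀ (p : P) (l : L), x.1 p ∈ x.2 l ↔ p ∈ l

/-- `x` has the center `C` and the axis `l` -/
def Per (x : PP P L) (C : P) (l : L) : Prop := (∀ p : P, p ∈ l → x.1 p = p) ∧ ∀ m : L, C ∈ m → x.2 m = m

/-- `G` is a group of collineations which is transitive on the points and on the lines -/
structure PT (G : Subgroup (PP P L)) : Prop where
  col : ∀ x ∈ G, IsCol x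
  tp : ∀ p q : P, ∃ x ∈ G, x.1 p = q
  tl : ∀ l m : L, ∃ x ∈ G, x.2 l = m

/-- `G` contains no elation -/
def NoEl (G : Subgroup (PP P L)) : Prop := ∀ x ∈ G, ∀ (C : P) (l : L), C ∈ l → Per x C l → x = 1

/-- `x` is an involutory homology of `G` with center `C` and axis `l` -/
def InvH (G : Subgroup (PP P L)) (x : PP P L) (C : P) (l : L) : Prop :=
  x ∈ G ∧ x ≠ 1 ∧ x * x = 1 ∧ C ∉ l ∧ Per x C l

theorem IsCol.one : IsCol (1 : PP P L) := fun _ _ => Iff.rfl

theorem IsCol.mul {x y : PP P L} (hx : IsCol x) (hy : IsCol y) : IsCol (x * y) := fun p l =>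
  (hx (y.1 p) (y.2 l)).trans (hy p l)

theorem IsCol.inv {x : PP P L} (hx : IsCol x) : IsCol x⁻¹ := by
  intro p l
  have h1 := hx (x⁻¹.1 p) (x⁻¹.2 l)
  have h2 : x.1 (x⁻¹.1 p) = p := Equiv.apply_symm_apply x.1 p
  have h3 : x.2 (x⁻¹.2 l) = l := Equiv.apply_symm_apply x.2 l
  rw [h2, h3] at h1
  exact h1.symm

theorem Per.one (C : P) (l : L) : Per (1 : PP P L) C l := ⟨fun _ _ => rfl, fun _ _ => rfl⟩

theorem Per.mul {x y : PP P L} {C : P} {l : L} (hx : Per x C l) (hy : Per y C l) : Per (x * y) C l := by
  refine ⟨fun p hp => ?_, fun m hm => ?_⟩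
  · show x.1 (y.1 p) = p
    rw [hy.1 p hp, hx.1 p hp]
  · show x.2 (y.2 m) = m
    rw [hy.2 m hm, hx.2 m hm]

theorem Per.inv {x : PP P L} {C : P} {l : L} (hx : Per x C l) : Per x⁻¹ C l := by
  refine ⟨fun p hp => ?_, fun m hm => ?_⟩
  · show x.1.symm p = p
    rw [Equiv.symm_apply_eq, hx.1 p hp]
  · show x.2.symm m = m
    rw [Equiv.symm_apply_eq, hx.2 m hm]

theorem Per.pow {x : PP P L} {C : P} {l : L} (hx : Per x C l) (k : ℕ) : Per (x ^ k) C l := by
  induction k with
  | zero => rw [pow_zero]; exact Per.one C l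
  | succ k ih => rw [pow_succ]; exact ih.mul hx

end

end Pool.Agent.H37.TR
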