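import Pool.Agent.H37.TR.ElC
import Pool.Agent.H37.TR.Ari

/-!
# Project TR, module ElF: the order is a prime power

If primes `p ≠ r` divide `order`: `C ≠ D` on `l`; Cauchy (`exists_prime_orderOf_dvd_card`): `x ∈ EC G C l` of order `p`, `y ∈ EC G D l` of
order `r`; `x y = y x` (`el_comm`), `x y` has a center `F` on `l` (`el_mul`); `(x y) ^ p = y ^ p ≠ 1` has the centers `F` and `D`: `F = D`
(`uniq`), then `x = (x y) y⁻¹` has center `D`, so `x = 1`: contradiction.  So `ppow`.
-/

set_option autoImplicit false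

open Configuration

namespace Pool.Agent.H37.TR

variable {P L : Type} [Membership P L] [Finite P] [Finite L] [ProjectivePlane P L]

theorem el_pp {G : Subgroup (PP P L)} (hG : ∀ x ∈ G, IsCol x) {l : L}
    (hh : ∀ C : P, C ∈ l → Nat.card (EC G C l) = ProjectivePlane.order P L) :
    ∃ p k : ℕ, p.Prime ∧ ProjectivePlane.order P L = p ^ k := by
  classical
  refine ppow (ProjectivePlane.one_lt_order P L) fun p r hp hr hpn hrn => ?_
  by_contra hne
  -- two points of the axis
  obtain ⟨C, hC, D, hD, hCD⟩ : ∃ C : P, C ∈ l ∧ ∃ D : P, D ∈ l ∧ C ≠ D := by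
    have h1 : 1 < Nat.card {p : P // p ∈ l} := by
      have h2 : pointCount P l = ProjectivePlane.order P L + 1 := ProjectivePlane.pointCount_eq P l
      have h3 := ProjectivePlane.one_lt_order P L
      have h4 : Nat.card {p : P // p ∈ l} = pointCount P l := rfl
      omega
    have h5 : Nontrivial {p : P // p ∈ l} := (Finite.one_lt_card_iff_nontrivial).1 h1
    obtain ⟨C, D, hCD⟩ := exists_pair_ne {p : P // p ∈ l}
    exact ⟨C.1, C.2, D.1, D.2, fun h => hCD (Subtype.ext h)⟩
  have : Fact p.Prime := ⟨hp⟩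
  have : Fact r.Prime := ⟨hr⟩
  obtain ⟨x, hx⟩ := exists_prime_orderOf_dvd_card' (G := EC G C l) p (by rw [hh C hC]; exact hpn)
  obtain ⟨y, hy⟩ := exists_prime_orderOf_dvd_card' (G := EC G D l) r (by rw [hh D hD]; exact hrn)
  obtain ⟨a, ha⟩ := x
  obtain ⟨b, hb⟩ := y
  have hx' : orderOf a = p := by rw [← hx]; exact (Subgroup.orderOf_mk a ha).symm
  have hy' : orderOf b = r := by rw [← hy]; exact (Subgroup.orderOf_mk b hb).symm
  have hab : a * b = b * a := el_comm (hG a ha.1) (hG b hb.1) hC hD hCD ha.2 hb.2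
  obtain ⟨F, hF, hz⟩ := el_mul (hG a ha.1) (hG b hb.1) hC hD ha.2 hb.2
  have ha1 : a ≠ 1 := by
    intro h
    rw [h, orderOf_one] at hx'
    exact hp.one_lt.ne hx'
  have hbp : b ^ p ≠ 1 := by
    intro h
    have h1 := orderOf_dvd_of_pow_eq_one h
    rw [hy'] at h1
    exact hne ((Nat.prime_dvd_prime_iff_eq hr hp).1 h1).symm
  have hzp : (a * b) ^ p = b ^ p := by
    have h1 : Commute a b := hab
    rw [h1.mul_pow, ← hx', pow_orderOf_eq_one, one_mul]
  have h1 : Per (b ^ p) F l := by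
    rw [← hzp]
    exact hz.pow p
  have hFD : F = D := (uniq (hG _ (G.pow_mem hb.1 p)) hbp h1 (hb.2.pow p)).1
  have h2 : Per a D l := by
    have h3 : a = (a * b) * b⁻¹ := by group
    rw [h3, ← hFD]
    refine hz.mul ?_
    rw [hFD]
    exact hb.2.inv
  exact hCD (uniq (hG a ha.1) ha1 ha.2 h2).1

end Pool.Agent.H37.TR
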