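import Pool.Agent.H37.TR.ElD
import Pool.Agent.H37.TR.ElF

/-!
# Project TR, module El: elations

`el_prime`: `k = orderOf x`, `p` a prime divisor, `y = x ^ (k / p)`.
`el_main`: `flag`, `ec_card`: all `EC G C m`, `C ∈ m`, have the same number `h ≥ 2` of elements; `el_card`, `el_dvd`, `ec_dvd`, `ari`, `el_pp`.
-/

set_option autoImplicit false

open Configuration

namespace Pool.Agent.H37.TR

variable {P L : Type} [Membership P L] [Finite P] [Finite L] [ProjectivePlane P L]

theorem el_prime {G : Subgroup (PP P L)} {x : PP P L} (hx : x ∈ G) (h1 : x ≠ 1) {C : P} {l : L} (h : Per x C l) :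
    ∃ (p : ℕ) (y : PP P L), p.Prime ∧ y ∈ G ∧ y ≠ 1 ∧ y ^ p = 1 ∧ Per y C l := by
  have h0 : orderOf x ≠ 0 := (orderOf_pos x).ne'
  have h2 : orderOf x ≠ 1 := fun h3 => h1 (orderOf_eq_one_iff.1 h3)
  have hp : (orderOf x).minFac.Prime := Nat.minFac_prime h2
  have h4 : orderOf (x ^ (orderOf x / (orderOf x).minFac)) = (orderOf x).minFac :=
    orderOf_pow_orderOf_div h0 (Nat.minFac_dvd _)
  refine ⟨(orderOf x).minFac, x ^ (orderOf x / (orderOf x).minFac), hp, G.pow_mem hx _, ?_, ?_,
    h.pow _⟩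
  · intro h5
    rw [h5, orderOf_one] at h4
    exact hp.one_lt.ne h4
  · have h6 := pow_orderOf_eq_one (x ^ (orderOf x / (orderOf x).minFac))
    rwa [h4] at h6

/-- **A point-transitive group which contains an elation.** -/
theorem el_main {G : Subgroup (PP P L)} (hG : PT G) (h : ¬ NoEl G) :
    ∃ p k : ℕ, p.Prime ∧ ProjectivePlane.order P L = p ^ k := by
  unfold NoEl at h
  push Not at h
  obtain ⟨x, hx, C, l, hC, hper, hx1⟩ := h
  obtain ⟨p, y, hp, hy, hy1, hyp, hyper⟩ := el_prime hx hx1 hper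
  have hfl : ∀ {A B : P} {m m' : L}, A ∈ m → B ∈ m' →
      Nat.card (EC G A m) = Nat.card (EC G B m') := by
    intro A B m m' hA hB
    exact ec_card hG (flag hG hp hy hy1 hyp hC hyper hA hB)
  have hge : 2 ≤ Nat.card (EC G C l) := by
    have h1 : EC G C l ≠ ⊥ := by
      intro h2
      have h3 : y ∈ EC G C l := ⟨hy, hyper⟩
      rw [h2, Subgroup.mem_bot] at h3
      exact hy1 h3
    exact (Subgroup.one_lt_card_iff_ne_bot _).2 h1
  have hh : ∀ D : P, D ∈ l → Nat.card (EC G D l) = Nat.card (EC G C l) := fun D hD => hfl hD hC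
  have hn : 1 ≤ ProjectivePlane.order P L := (ProjectivePlane.one_lt_order P L).le
  have h1 := el_card hG hh
  have h2 := el_dvd hG l
  rw [h1] at h2
  have h3 := ari hn hge (ec_dvd hG hC) h2
  exact el_pp hG.col fun D hD => (hh D hD).trans h3

end Pool.Agent.H37.TR
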