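import Pool.Agent.H37.TR.Bas

/-!
# Project TR, module ElA: every point is the center of elations of order `p` with different axes

`x ∈ G` an elation of order `p`.  By conjugation every point is a center, every line an axis of such elations (`conj`, `PT`).
Suppose that for some `A` all of them with center `A` have the same axis (by transitivity this is then true for all `A`): `A ↦ l_A`,
surjective as every line is an axis, so injective (`P`, `L` have the same number of elements, `ProjectivePlane.card_points`,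
`card_lines`), and `l_(y A) = y l_A` for `y ∈ G`.  Take `B` not on `l_A`, `m` the line `A B`, `m = l_D`, `D ∈ m`.  The elation `y` with
center `A` fixes `m`, so `l_(y D) = m = l_D`, `y D = D`, so `D ∈ l_A` or `D = A` (`fix`); `D ∈ l_A ∩ m = {A}`, so `D = A`, `m = l_A`:
contradiction.
-/

set_option autoImplicit false

open Configuration

namespace Pool.Agent.H37.TR

variable {P L : Type} [Membership P L] [Finite P] [Finite L] [ProjectivePlane P L]

/-- an elation of order `p` in `G` with center `A` and axis `l` -/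
private def ElA (G : Subgroup (PP P L)) (p : ℕ) (y : PP P L) (A : P) (l : L) : Prop :=
  y ∈ G ∧ y ≠ 1 ∧ y ^ p = 1 ∧ A ∈ l ∧ Per y A l

private theorem elA_conj {G : Subgroup (PP P L)} (hG : PT G) {p : ℕ} {g y : PP P L} (hg : g ∈ G) {A : P} {l : L}
    (h : ElA G p y A l) : ElA G p (g * y * g⁻¹) (g.1 A) (g.2 l) := by
  obtain ⟨h1, h2, h3, h4, h5⟩ := h
  refine ⟨G.mul_mem (G.mul_mem hg h1) (G.inv_mem hg), ?_, ?_, ?_, conj (hG.col g hg) h5⟩
  · intro h6
    exact h2 (conj_eq_one_iff.mp h6)
  · rw [conj_pow, h3, mul_one, mul_inv_cancel]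
  · exact (hG.col g hg A l).mpr h4

theorem el_two {G : Subgroup (PP P L)} (hG : PT G) {p : ℕ} (hp : p.Prime) {x : PP P L} (hx : x ∈ G) (h1 : x ≠ 1)
    (hxp : x ^ p = 1) {C : P} {l : L} (hC : C ∈ l) (hx' : Per x C l) (A : P) (m : L) (hA : A ∈ m) :
    ∃ y ∈ G, y ≠ 1 ∧ y ^ p = 1 ∧ ∃ m' : L, m' ≠ m ∧ A ∈ m' ∧ Per y A m' := by
  have hx0 : ElA G p x C l := ⟨hx, h1, hxp, hC, hx'⟩
  by_contra hcon
  -- all the elations with center `A` have the axis `m`
  have hu0 : ∀ (y : PP P L) (m' : L), ElA G p y A m' → m' = m := by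
    intro y m' hy
    by_contra hne
    exact hcon ⟨y, hy.1, hy.2.1, hy.2.2.1, m', hne, hy.2.2.2.1, hy.2.2.2.2⟩
  have huq : ∀ (B : P) (y y' : PP P L) (l₁ l₂ : L), ElA G p y B l₁ → ElA G p y' B l₂ → l₁ = l₂ := by
    intro B y y' l₁ l₂ hy hy'
    obtain ⟨g, hg, hgB⟩ := hG.tp B A
    have e1 := elA_conj hG hg hy
    have e2 := elA_conj hG hg hy'
    rw [hgB] at e1 e2
    exact g.2.injective ((hu0 _ _ e1).trans (hu0 _ _ e2).symm)
  have hex : ∀ B : P, ∃ (y : PP P L) (l' : L), ElA G p y B l' := by
    intro B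
    obtain ⟨g, hg, hgC⟩ := hG.tp C B
    have e1 := elA_conj hG hg hx0
    rw [hgC] at e1
    exact ⟨_, _, e1⟩
  choose y ax hax using hex
  have hsur : Function.Surjective ax := by
    intro l'
    obtain ⟨g, hg, hgl⟩ := hG.tl l l'
    have e1 := elA_conj hG hg hx0
    rw [hgl] at e1
    exact ⟨g.1 C, huq _ _ _ _ _ (hax _) e1⟩
  have hinj : Function.Injective ax := by
    have : Fintype P := Fintype.ofFinite P
    have : Fintype L := Fintype.ofFinite L
    exact ((Fintype.bijective_iff_surjective_and_card ax).mpr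
      ⟨hsur, ProjectivePlane.card_points_eq_card_lines P L⟩).1
  -- a point off the axis of `A`
  obtain ⟨B, hB⟩ := Nondegenerate.exists_point (P := P) (L := L) (ax A)
  have hAax : A ∈ ax A := (hax A).2.2.2.1
  have hAB : A ≠ B := by
    intro h
    rw [← h] at hB
    exact hB hAax
  obtain ⟨D, hD⟩ := hsur (HasLines.mkLine hAB)
  have hm := HasLines.mkLine_ax (L := L) hAB
  have hDD : D ∈ ax D := (hax D).2.2.2.1
  rw [← hD] at hm
  -- the elation of center `A` fixes `D`
  have hfixl : (y A).2 (ax D) = ax D := (hax A).2.2.2.2.2 _ hm.1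
  have hyD : (y A).1 D = D := by
    apply hinj
    have e1 := elA_conj hG (hax A).1 (hax D)
    rw [hfixl] at e1
    exact huq _ _ _ _ _ (hax _) e1
  have hDA : D ∈ ax A := by
    rcases fix (hG.col _ (hax A).1) (hax A).2.1 (hax A).2.2.2.2 hyD with h | h
    · exact h
    · rw [h]
      exact hAax
  rcases Nondegenerate.eq_or_eq hDA hAax hDD hm.1 with h | h
  · rw [h] at hm
    exact hB hm.2
  · rw [h] at hB
    exact hB hm.2

end Pool.Agent.H37.TR
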