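import Mathlib

/-!
# Project TR, module Gle: Gleason's lemma

`p` prime, every point of the finite set `X` is the only fixed point of some element `g` of the group `G` with `g ^ p = 1`.  Then `G` is
transitive: an orbit `D` with `a ∈ D`: `g_a` acts on `D` with one fixed point, so `|D| ≡ 1` modulo `p`; on every other orbit `g_a` has no
fixed point, so `|D'| ≡ 0` modulo `p` (`Equiv.Perm.card_fixedPoints_modEq` or `Pool.Agent.H12.FO.geo_sub`).
-/

set_option autoImplicit false

namespace Pool.Agent.H37.TR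

theorem gleason {X : Type} [Finite X] (G : Subgroup (Equiv.Perm X)) {p : ℕ} (hp : p.Prime)
    (h : ∀ a : X, ∃ g ∈ G, g ^ p = 1 ∧ ∀ b, g b = b ↔ b = a) (a b : X) : ∃ g ∈ G, g a = b := by
  classical
  have := Fact.mk hp
  -- number of points of an invariant set modulo `p`
  have key : ∀ (O : Set X), (∀ g ∈ G, ∀ z : X, z ∈ O → g z ∈ O) → ∀ w : X,
      Nat.card O ≡ (if w ∈ O then 1 else 0) [MOD p] := by
    intro O hO w
    obtain ⟨g, hgG, hgp, hg⟩ := h w
    let f : Function.End O := fun z => ⟨g z.1, hO g hgG z.1 z.2⟩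
    have hf : ∀ (m : ℕ) (z : O), (((f ^ m) z : O) : X) = (g ^ m) z.1 := by
      intro m
      induction m with
      | zero =>
        intro z
        rw [pow_zero, pow_zero, Equiv.Perm.one_apply]
        rfl
      | succ m ih =>
        intro z
        have h1 : (f ^ (m + 1)) z = f ((f ^ m) z) := by
          rw [pow_succ']
          rfl
        rw [h1, pow_succ', Equiv.Perm.mul_apply, ← ih z]
    have hfp : f ^ p ^ 1 = 1 := by
      funext z
      refine Subtype.ext ?_
      rw [pow_one, hf, hgp, Equiv.Perm.one_apply]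
      rfl
    have := Fintype.ofFinite O
    have h1 := Equiv.Perm.card_fixedPoints_modEq (f := f) hfp
    rw [Nat.card_eq_fintype_card]
    refine h1.trans ?_
    have h2 : Fintype.card (Function.fixedPoints f) = if w ∈ O then 1 else 0 := by
      by_cases hw : w ∈ O
      · rw [if_pos hw, Fintype.card_eq_one_iff]
        refine ⟨⟨⟨w, hw⟩, Subtype.ext ((hg w).2 rfl)⟩, fun z => ?_⟩
        refine Subtype.ext (Subtype.ext ?_)
        exact (hg _).1 (congrArg Subtype.val z.2)
      · rw [if_neg hw, Fintype.card_eq_zero_iff]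
        refine ⟨fun z => hw ?_⟩
        have h3 : (z.1 : O).1 = w := (hg _).1 (congrArg Subtype.val z.2)
        rw [← h3]
        exact z.1.2
    rw [h2]
  obtain ⟨O, hOd⟩ : ∃ O : Set X, O = {z | ∃ g ∈ G, g a = z} := ⟨_, rfl⟩
  have hO : ∀ g ∈ G, ∀ z : X, z ∈ O → g z ∈ O := by
    rw [hOd]
    rintro g hg _ ⟨x, hx, rfl⟩
    exact ⟨g * x, G.mul_mem hg hx, rfl⟩
  have haO : a ∈ O := by
    rw [hOd]
    exact ⟨1, G.one_mem, rfl⟩
  have h1 := key O hO a
  have h2 := key O hO b
  rw [if_pos haO] at h1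
  by_cases hb : b ∈ O
  · rw [hOd] at hb
    exact hb
  · rw [if_neg hb] at h2
    have h3 : 1 ≡ 0 [MOD p] := h1.symm.trans h2
    have h4 : p ∣ 1 := (Nat.modEq_zero_iff_dvd).1 h3
    exact absurd (Nat.dvd_one.1 h4) hp.ne_one

end Pool.Agent.H37.TR
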