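import Pool.Agent.H37.TR.ElA
import Pool.Agent.H37.TR.Gle

/-!
# Project TR, module ElB: `G` is flag-transitive

`G_l` acts on the points of `l` (`Equiv.Perm {p // p ∈ l}`); the elation `y` of `el_two` for `A ∈ l` fixes `l` (center `A ∈ l`) and of the
points of `l` only `A` (`fix`: `l ∩ m' = {A}`).  So `gleason` (for the group of the permutations induced by `{x ∈ G | x l = l}`).
-/

set_option autoImplicit false

open Configuration

namespace Pool.Agent.H37.TR

variable {P L : Type} [Membership P L]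

/-- the permutations of the points of `m` which are induced by the stabilizer of `m` in `G` -/
private def ElB_H (G : Subgroup (PP P L)) (m : L) : Subgroup (Equiv.Perm {q : P // q ∈ m}) where
  carrier := {σ | ∃ y ∈ G, y.2 m = m ∧ ∀ q : {q : P // q ∈ m}, (σ q : P) = y.1 q}
  mul_mem' := by
    rintro σ τ ⟨y, hy, hym, hyq⟩ ⟨z, hz, hzm, hzq⟩
    refine ⟨y * z, G.mul_mem hy hz, ?_, fun q => ?_⟩
    · show y.2 (z.2 m) = m
      rw [hzm, hym]
    · show (σ (τ q) : P) = y.1 (z.1 q)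
      rw [hyq, hzq]
  one_mem' := ⟨1, G.one_mem, rfl, fun _ => rfl⟩
  inv_mem' := by
    rintro σ ⟨y, hy, hym, hyq⟩
    refine ⟨y⁻¹, G.inv_mem hy, ?_, fun q => ?_⟩
    · show y.2.symm m = m
      rw [Equiv.symm_apply_eq, hym]
    · show ((σ⁻¹ q : {q : P // q ∈ m}) : P) = y.1.symm q
      rw [eq_comm, Equiv.symm_apply_eq, ← hyq]
      exact congrArg Subtype.val (Equiv.apply_symm_apply σ q).symm

variable [Finite P] [Finite L] [ProjectivePlane P L]

theorem flag {G : Subgroup (PP P L)} (hG : PT G) {p : ℕ} (hp : p.Prime) {x : PP P L} (hx : x ∈ G) (h1 : x ≠ 1)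
    (hxp : x ^ p = 1) {C : P} {l : L} (hC : C ∈ l) (hx' : Per x C l) {A B : P} {m m' : L} (hA : A ∈ m) (hB : B ∈ m') :
    ∃ y ∈ G, y.1 A = B ∧ y.2 m = m' := by
  obtain ⟨g, hg, hgm⟩ := hG.tl m m'
  have hgA : g.1 A ∈ m' := by
    rw [← hgm]
    exact (hG.col g hg A m).2 hA
  have key : ∀ a : {q : P // q ∈ m'}, ∃ σ ∈ ElB_H G m', σ ^ p = 1 ∧ ∀ b, σ b = b ↔ b = a := by
    intro a
    obtain ⟨y, hy, hy1, hyp, m'', hm, ha, hper⟩ := el_two hG hp hx h1 hxp hC hx' a.1 m' a.2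
    have hym : y.2 m' = m' := hper.2 m' a.2
    have hst : ∀ q : P, y.1 q ∈ m' ↔ q ∈ m' := fun q => by
      have h2 := hG.col y hy q m'
      rwa [hym] at h2
    refine ⟨y.1.subtypePerm hst, ⟨y, hy, hym, fun q => rfl⟩, ?_, fun b => ⟨fun hb => ?_, fun hb => ?_⟩⟩
    · rw [Equiv.Perm.subtypePerm_pow]
      have h2 : y.1 ^ p = 1 := congrArg Prod.fst hyp
      ext q
      show (y.1 ^ p) (q : P) = q
      rw [h2]
      rfl
    · have h2 : y.1 b = b := congrArg Subtype.val hb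
      rcases fix (hG.col y hy) hy1 hper h2 with h3 | h3
      · rcases Nondegenerate.eq_or_eq b.2 a.2 h3 ha with h4 | h4
        · exact Subtype.ext h4
        · exact absurd h4.symm hm
      · exact Subtype.ext h3
    · subst hb
      exact Subtype.ext (hper.1 _ ha)
  obtain ⟨σ, ⟨y, hy, hym, hyq⟩, hσ⟩ := gleason (ElB_H G m') hp key ⟨g.1 A, hgA⟩ ⟨B, hB⟩
  refine ⟨y * g, G.mul_mem hy hg, ?_, ?_⟩
  · show y.1 (g.1 A) = B
    have h2 := hyq ⟨g.1 A, hgA⟩
    rw [hσ] at h2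
    exact h2.symm
  · show y.2 (g.2 m) = m'
    rw [hgm, hym]

end Pool.Agent.H37.TR
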