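import Pool.Agent.H37.TR.Bas
import Pool.Agent.H37.TR.Axc

/-!
# Project TR, module ElC: the groups of elations

`EC G C l`: the elements of `G` with center `C` and axis `l`.  `EL G l`: the elations with axis `l`.  `el_mul`: `x`, `y` elations with axis
`l` and centers `C`, `C'`.  If `C = C'` or `x = 1` or `y = 1` trivial.  `x y` fixes the points of `l`, so it has a center `D`
(`center_of_axis`).  If `D ∉ l`: `x y D = D` (the lines through `D` are fixed), `y D = x⁻¹ D` is on the lines `C' D` (fixed by `y`) and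
`C D` (fixed by `x`), which are different and meet in `D`; so `y D = D`, `y = 1` by `fix`.
`el_comm`: `x y x⁻¹` has center `x D = D` (`conj`), so `x y x⁻¹ y⁻¹` has center `D` and also center `C`: it is `1` by `uniq`.
-/

set_option autoImplicit false

open Configuration

namespace Pool.Agent.H37.TR

variable {P L : Type} [Membership P L]

/-- the elements of `G` with center `C` and axis `l` -/
def EC (G : Subgroup (PP P L)) (C : P) (l : L) : Subgroup (PP P L) where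
  carrier := {x | x ∈ G ∧ Per x C l}
  mul_mem' := fun hx hy => ⟨G.mul_mem hx.1 hy.1, hx.2.mul hy.2⟩
  one_mem' := ⟨G.one_mem, Per.one C l⟩
  inv_mem' := fun hx => ⟨G.inv_mem hx.1, hx.2.inv⟩

variable [Finite P] [Finite L] [ProjectivePlane P L]

theorem el_mul {x y : PP P L} (hx : IsCol x) (hy : IsCol y) {l : L} {C C' : P} (hC : C ∈ l) (hC' : C' ∈ l)
    (h : Per x C l) (h' : Per y C' l) : ∃ D : P, D ∈ l ∧ Per (x * y) D l := by
  by_cases hCC : C = C'
  · subst hCC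
    exact ⟨C, hC, h.mul h'⟩
  by_cases hy1 : y = 1
  · subst hy1
    exact ⟨C, hC, by rwa [mul_one]⟩
  obtain ⟨D, hD⟩ := center_of_axis (hx.mul hy) (l := l) (fun p hp => by
    show x.1 (y.1 p) = p
    rw [h'.1 p hp, h.1 p hp])
  by_cases hDl : D ∈ l
  · exact ⟨D, hDl, hD⟩
  exfalso
  have hDC : D ≠ C := fun e => hDl (e ▸ hC)
  have hDC' : D ≠ C' := fun e => hDl (e ▸ hC')
  obtain ⟨a, ha⟩ : ∃ a : L, D ∈ a ∧ C ∈ a := ⟨HasLines.mkLine hDC, HasLines.mkLine_ax hDC⟩
  obtain ⟨b, hb⟩ : ∃ b : L, D ∈ b ∧ C' ∈ b := ⟨HasLines.mkLine hDC', HasLines.mkLine_ax hDC'⟩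
  have hab : a ≠ b := by
    rintro rfl
    rcases Nondegenerate.eq_or_eq ha.2 hb.2 hC hC' with e | e
    · exact hCC e
    · exact hDl (e ▸ ha.1)
  have hxy : ∀ m : L, D ∈ m → x.1 (y.1 D) ∈ m := fun m hm => by
    have h1 := ((hx.mul hy) D m).2 hm
    rw [hD.2 m hm] at h1
    exact h1
  have h2 : x.1 (y.1 D) = D :=
    (Nondegenerate.eq_or_eq (hxy a ha.1) ha.1 (hxy b hb.1) hb.1).resolve_right hab
  have h3 : y.1 D ∈ b := by
    have h4 := (hy D b).2 hb.1
    rw [h'.2 b hb.2] at h4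
    exact h4
  have h5 : y.1 D ∈ a := by
    have h6 := (hx (y.1 D) a).1
    rw [h2, h.2 a ha.2] at h6
    exact h6 ha.1
  have h7 : y.1 D = D := (Nondegenerate.eq_or_eq h5 ha.1 h3 hb.1).resolve_right hab
  rcases fix hy hy1 h' h7 with e | e
  · exact hDl e
  · exact hDC' e

/-- the elations of `G` with axis `l` -/
def EL {G : Subgroup (PP P L)} (hG : ∀ x ∈ G, IsCol x) (l : L) : Subgroup (PP P L) where
  carrier := {x | x ∈ G ∧ ∃ C : P, C ∈ l ∧ Per x C l}
  mul_mem' := by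
    rintro x y ⟨hx, C, hC, h⟩ ⟨hy, C', hC', h'⟩
    exact ⟨G.mul_mem hx hy, el_mul (hG x hx) (hG y hy) hC hC' h h'⟩
  one_mem' := by
    obtain ⟨C, hC⟩ : ∃ C : P, C ∈ l := by
      have h1 : 0 < pointCount P l := by
        rw [ProjectivePlane.pointCount_eq]
        omega
      obtain ⟨C, hC⟩ := (Nat.card_pos_iff.1 h1).1
      exact ⟨C, hC⟩
    exact ⟨G.one_mem, C, hC, Per.one C l⟩
  inv_mem' := by
    rintro x ⟨hx, C, hC, h⟩
    exact ⟨G.inv_mem hx, C, hC, h.inv⟩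

theorem el_comm {x y : PP P L} (hx : IsCol x) (hy : IsCol y) {l : L} {C D : P} (hC : C ∈ l) (hD : D ∈ l) (hCD : C ≠ D)
    (h : Per x C l) (h' : Per y D l) : x * y = y * x := by
  have h1 : Per (x * y * x⁻¹) D l := by
    have h2 := conj hx h'
    rwa [h.1 D hD, h.2 l hC] at h2
  have h3 : Per (y * x⁻¹ * y⁻¹) C l := by
    have h4 := conj hy h.inv
    rwa [h'.1 C hC, h'.2 l hD] at h4
  have h5 : Per (x * y * x⁻¹ * y⁻¹) D l := h1.mul h'.inv
  have h6 : Per (x * y * x⁻¹ * y⁻¹) C l := by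
    have h7 := h.mul h3
    have h8 : x * (y * x⁻¹ * y⁻¹) = x * y * x⁻¹ * y⁻¹ := by group
    rwa [h8] at h7
  have h9 : IsCol (x * y * x⁻¹ * y⁻¹) := ((hx.mul hy).mul hx.inv).mul hy.inv
  have h10 : x * y * x⁻¹ * y⁻¹ = 1 := by
    by_contra hne
    exact hCD (uniq h9 hne h6 h5).1
  exact mul_inv_eq_iff_eq_mul.1 (mul_inv_eq_one.1 h10)

end Pool.Agent.H37.TR
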