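import Pool.Agent.H37.TR.ElB
import Pool.Agent.H37.TR.ElC

/-!
# Project TR, module ElD: the numbers of elations

`ec_card`: conjugation with the `y` of `flag` is a bijection from `EC G A m` to `EC G B m'` (`conj`).  `el_card`: `EL l` without `1` is the
disjoint union of the `EC G C l` without `1`, `C` on `l` (`uniq`), `order + 1` points.  `el_dvd`: `EL l` acts on the `order ^ 2` points off
`l` (`x` fixes `l`) and only `1` has a fixed point there (`fix`: the center is on `l`): `Nat.card (EL l)` divides their number (e.g. all orbits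
have `Nat.card (EL l)` elements: orbit-stabilizer; `card P = order ^ 2 + order + 1`).  `ec_dvd`: `EC G C l` acts in the same way on the `order`
points `≠ C` of a line `≠ l` through `C`.
-/

set_option autoImplicit false

open Configuration

namespace Pool.Agent.H37.TR

variable {P L : Type} [Membership P L] [Finite P] [Finite L] [ProjectivePlane P L]

omit [ProjectivePlane P L] in
private theorem ElD_le {G : Subgroup (PP P L)} (hG : PT G) {y : PP P L} (hy : y ∈ G) (A : P) (m : L) :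
    Nat.card (EC G A m) ≤ Nat.card (EC G (y.1 A) (y.2 m)) := by
  refine Nat.card_le_card_of_injective
    (fun x : EC G A m => (⟨y * x.1 * y⁻¹, G.mul_mem (G.mul_mem hy x.2.1) (G.inv_mem hy),
      conj (hG.col y hy) x.2.2⟩ : EC G (y.1 A) (y.2 m))) ?_
  intro a b hab
  have h1 : y * a.1 * y⁻¹ = y * b.1 * y⁻¹ := congrArg Subtype.val hab
  exact Subtype.ext (mul_left_cancel (mul_right_cancel h1))

theorem ec_card {G : Subgroup (PP P L)} (hG : PT G) {A B : P} {m m' : L}
    (h : ∃ y ∈ G, y.1 A = B ∧ y.2 m = m') : Nat.card (EC G A m) = Nat.card (EC G B m') := by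
  obtain ⟨y, hy, rfl, rfl⟩ := h
  refine le_antisymm (ElD_le hG hy A m) ?_
  have h1 := ElD_le hG (G.inv_mem hy) (y.1 A) (y.2 m)
  have h2 : y⁻¹.1 (y.1 A) = A := Equiv.symm_apply_apply y.1 A
  have h3 : y⁻¹.2 (y.2 m) = m := Equiv.symm_apply_apply y.2 m
  rwa [h2, h3] at h1

private theorem ElD_opt {α : Type} [Finite α] (a : α) :
    Nat.card α = Nat.card {x : α // x ≠ a} + 1 := by
  classical
  rw [← Finite.card_option]
  exact Nat.card_congr (Equiv.optionSubtypeNe a).symm

theorem el_card {G : Subgroup (PP P L)} (hG : PT G) {l : L} {h : ℕ} (hh : ∀ C : P, C ∈ l → Nat.card (EC G C l) = h) :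
    Nat.card (EL hG.col l) = 1 + (ProjectivePlane.order P L + 1) * (h - 1) := by
  classical
  have : Fintype {C : P // C ∈ l} := Fintype.ofFinite _
  have h1 : Nat.card ((C : {C : P // C ∈ l}) × {x : EC G C.1 l // x ≠ 1}) =
      (ProjectivePlane.order P L + 1) * (h - 1) := by
    rw [Nat.card_sigma]
    have h2 : ∀ C : {C : P // C ∈ l}, Nat.card {x : EC G C.1 l // x ≠ 1} = h - 1 := by
      intro C
      have h3 := ElD_opt (1 : EC G C.1 l)
      rw [hh C.1 C.2] at h3
      omega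
    rw [Finset.sum_congr rfl fun C _ => h2 C, Finset.sum_const, Finset.card_univ, smul_eq_mul,
      ← Nat.card_eq_fintype_card]
    have h4 : Nat.card {C : P // C ∈ l} = ProjectivePlane.order P L + 1 :=
      ProjectivePlane.pointCount_eq P l
    rw [h4]
  have h5 : Nat.card ((C : {C : P // C ∈ l}) × {x : EC G C.1 l // x ≠ 1}) =
      Nat.card {x : EL hG.col l // x ≠ 1} := by
    refine Nat.card_eq_of_bijective (fun s => (⟨⟨s.2.1.1, s.2.1.2.1, s.1.1, s.1.2, s.2.1.2.2⟩,
      fun h0 => s.2.2 (Subtype.ext (congrArg (fun z : EL hG.col l => z.1) h0))⟩ :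
        {x : EL hG.col l // x ≠ 1}))
      ⟨?_, ?_⟩
    · rintro ⟨⟨C, hC⟩, ⟨⟨x, hx, hxC⟩, hx1⟩⟩ ⟨⟨D, hD⟩, ⟨⟨y, hy, hyD⟩, hy1⟩⟩ hab
      have h6 : x = y := congrArg (fun z : {x : EL hG.col l // x ≠ 1} => z.1.1) hab
      subst h6
      have h7 : x ≠ 1 := fun h0 => hx1 (Subtype.ext h0)
      obtain rfl : C = D := (uniq (hG.col x hx) h7 hxC hyD).1
      rfl
    · rintro ⟨⟨x, hx, C, hC, hxC⟩, hx1⟩
      exact ⟨⟨⟨C, hC⟩, ⟨⟨x, hx, hxC⟩, fun h0 =>
        hx1 (Subtype.ext (congrArg (fun z : EC G C l => z.1) h0))⟩⟩, rfl⟩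
  rw [ElD_opt (1 : EL hG.col l), ← h5, h1]
  ring

private theorem ElD_free {H Q : Type} [Group H] [MulAction H Q]
    (hf : ∀ (x : H) (q : Q), x • q = q → x = 1) : Nat.card H ∣ Nat.card Q := by
  have e := MulAction.sigmaFixedByEquivOrbitsProdGroup H Q
  have e2 : (Σ a : H, MulAction.fixedBy Q a) ≃ Q :=
    { toFun := fun s => s.2.1
      invFun := fun q => ⟨1, ⟨q, one_smul H q⟩⟩
      left_inv := by
        rintro ⟨a, q, hq⟩
        obtain rfl := hf a q hq
        rfl
      right_inv := fun q => rfl }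
  have h1 := Nat.card_congr (e2.symm.trans e)
  rw [Nat.card_prod] at h1
  exact ⟨_, by rw [h1, mul_comm]⟩

theorem el_dvd {G : Subgroup (PP P L)} (hG : PT G) (l : L) :
    Nat.card (EL hG.col l) ∣ ProjectivePlane.order P L ^ 2 := by
  classical
  have : Fintype P := Fintype.ofFinite P
  have : Fintype L := Fintype.ofFinite L
  have hfix : ∀ (x : EL hG.col l) (p : P), x.1.1 p ∈ l ↔ p ∈ l := by
    rintro ⟨x, hx, C, hC, hxC⟩ p
    have h1 := hG.col x hx p l
    rw [hxC.2 l hC] at h1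
    exact h1
  let act : MulAction (EL hG.col l) {p : P // p ∉ l} :=
    { smul := fun x p => ⟨x.1.1 p.1, fun h0 => p.2 ((hfix x p.1).1 h0)⟩
      one_smul := fun p => rfl
      mul_smul := fun x y p => rfl }
  have hf : ∀ (x : EL hG.col l) (q : {p : P // p ∉ l}), x • q = q → x = 1 := by
    rintro ⟨x, hx, C, hC, hxC⟩ ⟨p, hp⟩ h0
    by_contra h1
    have h2 : x ≠ 1 := fun h => h1 (Subtype.ext h)
    have h3 : x.1 p = p := congrArg Subtype.val h0
    rcases fix (hG.col x hx) h2 hxC h3 with h4 | h4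
    · exact hp h4
    · exact hp (h4 ▸ hC)
  have h1 := ElD_free hf
  have h2 : Nat.card {p : P // p ∈ l} = ProjectivePlane.order P L + 1 :=
    ProjectivePlane.pointCount_eq P l
  have h3 : Nat.card P = ProjectivePlane.order P L ^ 2 + ProjectivePlane.order P L + 1 := by
    rw [Nat.card_eq_fintype_card, ProjectivePlane.card_points P L]
  have h4 : Nat.card P = Nat.card {p : P // p ∈ l} + Nat.card {p : P // p ∉ l} := by
    rw [← Nat.card_sum]
    exact Nat.card_congr (Equiv.sumCompl fun p : P => p ∈ l).symm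
  have h5 : Nat.card {p : P // p ∉ l} = ProjectivePlane.order P L ^ 2 := by omega
  rwa [h5] at h1

theorem ec_dvd {G : Subgroup (PP P L)} (hG : PT G) {C : P} {l : L} (hC : C ∈ l) :
    Nat.card (EC G C l) ∣ ProjectivePlane.order P L := by
  classical
  obtain ⟨m, hm, hml⟩ : ∃ m : L, C ∈ m ∧ m ≠ l := by
    have h1 : Nat.card {m : L // C ∈ m} = ProjectivePlane.order P L + 1 :=
      ProjectivePlane.lineCount_eq L C
    have h2 : 1 < Nat.card {m : L // C ∈ m} := by
      rw [h1]
      have := ProjectivePlane.one_lt_order P L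
      omega
    have h3 : Nontrivial {m : L // C ∈ m} := Finite.one_lt_card_iff_nontrivial.1 h2
    obtain ⟨⟨m, hm⟩, h4⟩ := exists_ne (⟨l, hC⟩ : {m : L // C ∈ m})
    exact ⟨m, hm, fun h0 => h4 (Subtype.ext h0)⟩
  have hfix : ∀ (x : EC G C l) (p : P), (x.1.1 p ∈ m ∧ x.1.1 p ≠ C) ↔ (p ∈ m ∧ p ≠ C) := by
    rintro ⟨x, hx, hxC⟩ p
    have h1 := hG.col x hx p m
    rw [hxC.2 m hm] at h1
    have h2 : x.1 C = C := hxC.1 C hC
    have h3 : x.1 p = C ↔ p = C := by
      constructor
      · intro h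
        exact x.1.injective (h.trans h2.symm)
      · rintro rfl
        exact h2
    exact and_congr h1 (not_congr h3)
  let act : MulAction (EC G C l) {p : P // p ∈ m ∧ p ≠ C} :=
    { smul := fun x p => ⟨x.1.1 p.1, (hfix x p.1).2 p.2⟩
      one_smul := fun p => rfl
      mul_smul := fun x y p => rfl }
  have hf : ∀ (x : EC G C l) (q : {p : P // p ∈ m ∧ p ≠ C}), x • q = q → x = 1 := by
    rintro ⟨x, hx, hxC⟩ ⟨p, hp, hpC⟩ h0
    by_contra h1
    have h2 : x ≠ 1 := fun h => h1 (Subtype.ext h)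
    have h3 : x.1 p = p := congrArg Subtype.val h0
    rcases fix (hG.col x hx) h2 hxC h3 with h4 | h4
    · rcases Nondegenerate.eq_or_eq hp hm h4 hC with h5 | h5
      · exact hpC h5
      · exact hml h5
    · exact hpC h4
  have h1 := ElD_free hf
  have h2 : Nat.card {p : P // p ∈ m} = ProjectivePlane.order P L + 1 :=
    ProjectivePlane.pointCount_eq P m
  have h3 := ElD_opt (⟨C, hm⟩ : {p : P // p ∈ m})
  have h4 : Nat.card {x : {p : P // p ∈ m} // x ≠ ⟨C, hm⟩} = Nat.card {p : P // p ∈ m ∧ p ≠ C} := by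
    refine Nat.card_eq_of_bijective (fun x => (⟨x.1.1, x.1.2,
      fun h0 => x.2 (Subtype.ext h0)⟩ : {p : P // p ∈ m ∧ p ≠ C})) ⟨?_, ?_⟩
    · intro a b hab
      exact Subtype.ext (Subtype.ext (congrArg (fun z : {p : P // p ∈ m ∧ p ≠ C} => z.1) hab))
    · rintro ⟨p, hp, hpC⟩
      exact ⟨⟨⟨p, hp⟩, fun h0 => hpC (congrArg Subtype.val h0)⟩, rfl⟩
  have h5 : Nat.card {p : P // p ∈ m ∧ p ≠ C} = ProjectivePlane.order P L := by omega
  rwa [h5] at h1

end Pool.Agent.H37.TR
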