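import Pool.Agent.H37.TR.Bas
import Pool.Agent.H37.TR.Axc

/-!
# Project TR, module HoA: products of involutory homologies

`ho_ax`: `z = x y` fixes the points of `l`, so it has a center `X` (`center_of_axis`).  `z ≠ 1` (otherwise `y = x⁻¹ = x`, `C = C'` by `uniq`).
If `X ∈ l` then `z` is an elation: contradiction to `NoEl`.  So `X ∉ l`; `x z x⁻¹ = y x = z⁻¹` has the centers `x X` (`conj`) and `X`
(`Per.inv`), so `x X = X`, `X = C` by `fix`; in the same way `y z y⁻¹ = y x = z⁻¹`, so `X = C'`.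
`ho_ce`: dual: `z = x y` fixes the lines through `C`, so it has an axis `m` (`axis_of_center`), `z ≠ 1`, `C ∉ m`; `x m = m`, so `m = l`
(`fixl`), in the same way `m = l'`.
-/

set_option autoImplicit false

open Configuration

namespace Pool.Agent.H37.TR

variable {P L : Type} [Membership P L] [Finite P] [Finite L] [ProjectivePlane P L]

omit [Membership P L] [Finite P] [Finite L] [ProjectivePlane P L] in
private theorem hoa_conj_left {x y : PP P L} (hx : x * x = 1) (hy : y * y = 1) : x * (x * y) * x⁻¹ = (x * y)⁻¹ := by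
  have h1 : x⁻¹ = x := inv_eq_of_mul_eq_one_left hx
  have h2 : y⁻¹ = y := inv_eq_of_mul_eq_one_left hy
  rw [mul_inv_rev, h1, h2, ← mul_assoc x x y, hx, one_mul]

omit [Membership P L] [Finite P] [Finite L] [ProjectivePlane P L] in
private theorem hoa_conj_right {x y : PP P L} (hx : x * x = 1) (hy : y * y = 1) : y * (x * y) * y⁻¹ = (x * y)⁻¹ := by
  have h1 : x⁻¹ = x := inv_eq_of_mul_eq_one_left hx
  have h2 : y⁻¹ = y := inv_eq_of_mul_eq_one_left hy
  rw [mul_inv_rev, h1, h2, mul_assoc, mul_assoc, hy, mul_one]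

omit [Membership P L] [Finite P] [Finite L] [ProjectivePlane P L] in
private theorem hoa_eq {x y : PP P L} (hx : x * x = 1) (h : x * y = 1) : y = x := by
  have h1 : x * y = x * x := h.trans hx.symm
  exact mul_left_cancel h1

/-- the center and the axis of `z = x y` are fixed by an element `u` with `u z u⁻¹ = z⁻¹` -/
private theorem hoa_fix {u z : PP P L} {X : P} {m : L} (hu : IsCol u) (hz : IsCol z) (hz1 : z ≠ 1) (h : Per z X m)
    (huz : u * z * u⁻¹ = z⁻¹) : u.1 X = X ∧ u.2 m = m := by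
  have h1 := conj hu h
  rw [huz] at h1
  exact uniq hz.inv (fun h0 => hz1 (inv_eq_one.1 h0)) h1 h.inv

theorem ho_ax {G : Subgroup (PP P L)} (hG : ∀ x ∈ G, IsCol x) (hE : NoEl G) {x y : PP P L} {C C' : P} {l : L}
    (hx : InvH G x C l) (hy : InvH G y C' l) : C = C' := by
  obtain ⟨hxG, hx1, hxx, hCl, hxp⟩ := hx
  obtain ⟨hyG, hy1, hyy, hCl', hyp⟩ := hy
  by_cases hz1 : x * y = 1
  · have h1 := hoa_eq hxx hz1
    rw [h1] at hyp
    exact (uniq (hG x hxG) hx1 hxp hyp).1
  · have hzG : x * y ∈ G := G.mul_mem hxG hyG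
    have hz := hG _ hzG
    obtain ⟨X, hX⟩ := center_of_axis hz (l := l) (fun p hp => by
      show x.1 (y.1 p) = p
      rw [hyp.1 p hp, hxp.1 p hp])
    have hXl : X ∉ l := fun h => hz1 (hE _ hzG X l h hX)
    have h1 := (hoa_fix (hG x hxG) hz hz1 hX (hoa_conj_left hxx hyy)).1
    have h2 := (hoa_fix (hG y hyG) hz hz1 hX (hoa_conj_right hxx hyy)).1
    have h3 := (fix (hG x hxG) hx1 hxp h1).resolve_left hXl
    have h4 := (fix (hG y hyG) hy1 hyp h2).resolve_left hXl
    exact h3.symm.trans h4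

theorem ho_ce {G : Subgroup (PP P L)} (hG : ∀ x ∈ G, IsCol x) (hE : NoEl G) {x y : PP P L} {C : P} {l l' : L}
    (hx : InvH G x C l) (hy : InvH G y C l') : l = l' := by
  obtain ⟨hxG, hx1, hxx, hCl, hxp⟩ := hx
  obtain ⟨hyG, hy1, hyy, hCl', hyp⟩ := hy
  by_cases hz1 : x * y = 1
  · have h1 := hoa_eq hxx hz1
    rw [h1] at hyp
    exact (uniq (hG x hxG) hx1 hxp hyp).2
  · have hzG : x * y ∈ G := G.mul_mem hxG hyG
    have hz := hG _ hzG
    obtain ⟨m, hm⟩ := axis_of_center hz (C := C) (fun k hk => by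
      show x.2 (y.2 k) = k
      rw [hyp.2 k hk, hxp.2 k hk])
    have hCm : C ∉ m := fun h => hz1 (hE _ hzG C m h hm)
    have h1 := (hoa_fix (hG x hxG) hz hz1 hm (hoa_conj_left hxx hyy)).2
    have h2 := (hoa_fix (hG y hyG) hz hz1 hm (hoa_conj_right hxx hyy)).2
    have h3 := (fixl (hG x hxG) hx1 hxp h1).resolve_left hCm
    have h4 := (fixl (hG y hyG) hy1 hyp h2).resolve_left hCm
    exact h3.symm.trans h4

end Pool.Agent.H37.TR
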