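import Pool.Agent.H37.TR.HoA

/-!
# Project TR, module HoB: the polarity

By conjugation (`conj`) every point is the center of an involutory homology of `G`; `π C` = its axis (`Classical.choice`; unique by
`ho_ce`), `π` is injective by `ho_ax`, hence surjective (`ProjectivePlane.card_points`, `card_lines`), `C ∉ π C`, `y (π C) = π (y C)` for
`y ∈ G`.  `X ∈ π Y`: let `x` be the homology with center `X` and axis `π X`.  It fixes the line `π Y`, which contains its center `X`; so
`π (x Y) = π Y`, `x Y = Y`, so `Y ∈ π X` or `Y = X` (`fix`); `Y = X ∈ π Y` is impossible.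
-/

set_option autoImplicit false

open Configuration

namespace Pool.Agent.H37.TR

variable {P L : Type} [Membership P L] [Finite P] [Finite L] [ProjectivePlane P L]

omit [Finite P] [Finite L] [ProjectivePlane P L] in
private theorem HoB_conj {G : Subgroup (PP P L)} (hG : PT G) {x y : PP P L} {C : P} {l : L} (hy : y ∈ G)
    (hx : InvH G x C l) : InvH G (y * x * y⁻¹) (y.1 C) (y.2 l) := by
  obtain ⟨h1, h2, h3, h4, h5⟩ := hx
  refine ⟨G.mul_mem (G.mul_mem hy h1) (G.inv_mem hy), fun h => h2 ?_, ?_, ?_, conj (hG.col y hy) h5⟩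
  · have h6 : y * x = y * 1 := by rw [mul_one]; exact mul_inv_eq_one.1 h
    exact mul_left_cancel h6
  · have h6 : y * x * y⁻¹ * (y * x * y⁻¹) = y * (x * x) * y⁻¹ := by group
    rw [h6, h3, mul_one, mul_inv_cancel]
  · rw [hG.col y hy C l]
    exact h4

theorem polarity {G : Subgroup (PP P L)} (hG : PT G) (hE : NoEl G) {x : PP P L} {C : P} {l : L} (hx : InvH G x C l) :
    ∃ π : P → L, Function.Injective π ∧ (∀ X, X ∉ π X) ∧ ∀ X Y, X ∈ π Y → Y ∈ π X := by
  have h0 : ∀ X : P, ∃ (a : L) (z : PP P L), InvH G z X a := by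
    intro X
    obtain ⟨y, hy, hyX⟩ := hG.tp C X
    exact ⟨y.2 l, y * x * y⁻¹, hyX ▸ HoB_conj hG hy hx⟩
  choose π z hz using h0
  have hinj : Function.Injective π := fun X Y hXY => ho_ax hG.col hE (hz X) (hXY ▸ hz Y)
  have hcov : ∀ (y : PP P L), y ∈ G → ∀ Y, π (y.1 Y) = y.2 (π Y) := fun y hy Y =>
    ho_ce hG.col hE (hz (y.1 Y)) (HoB_conj hG hy (hz Y))
  refine ⟨π, hinj, fun X => (hz X).2.2.2.1, fun X Y hXY => ?_⟩
  have h1 : (z X).2 (π Y) = π Y := (hz X).2.2.2.2.2 _ hXY
  have h2 : (z X).1 Y = Y := hinj (by rw [hcov _ (hz X).1, h1])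
  rcases fix (hG.col _ (hz X).1) (hz X).2.1 (hz X).2.2.2.2 h2 with h3 | h3
  · exact h3
  · exact absurd hXY (by rw [h3]; exact (hz X).2.2.2.1)

end Pool.Agent.H37.TR
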