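import Pool.Agent.H37.TR.Defs

/-!
# Project TR, module InvB: the count

`k` fixed points on every fixed line, `k` fixed lines through every fixed point, at least one fixed point `p`.  The fixed points
`≠ p` are on the `k` fixed lines through `p`, each of which contains `k - 1` of them, each of them is on one such line (the line
`p q` of two fixed points is fixed): `t = 1 + k (k - 1)`.
`sq_of`: `t = n + k`, `t = 1 + k (k - 1)`, so `n = (k - 1) ^ 2` (`k ≥ 1`).
-/

set_option autoImplicit false

open Configuration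

namespace Pool.Agent.H37.TR

theorem sq_of {n k t : ℕ} (hk : 1 ≤ k) (h1 : t = n + k) (h2 : t = 1 + k * (k - 1)) : IsSquare n := by
  obtain ⟨m, rfl⟩ : ∃ m, k = m + 1 := ⟨k - 1, by omega⟩
  rw [Nat.add_sub_cancel, Nat.add_mul, Nat.one_mul] at h2
  exact ⟨m, by omega⟩

variable {P L : Type} [Membership P L] [Finite P] [Finite L] [ProjectivePlane P L]

omit [Finite P] [Finite L] in
/-- the line through two fixed points is fixed -/
private theorem InvB_line {x : PP P L} (hx : IsCol x) {p q : P} (hp : x.1 p = p) (hq : x.1 q = q)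
    (hpq : p ≠ q) : ∃ l : L, x.2 l = l ∧ p ∈ l ∧ q ∈ l := by
  obtain ⟨h1, h2⟩ := HasLines.mkLine_ax (P := P) (L := L) hpq
  refine ⟨HasLines.mkLine hpq, ?_, h1, h2⟩
  have h3 := (hx p (HasLines.mkLine hpq)).2 h1
  have h4 := (hx q (HasLines.mkLine hpq)).2 h2
  rw [hp] at h3
  rw [hq] at h4
  rcases Nondegenerate.eq_or_eq h3 h4 h1 h2 with h | h
  · exact absurd h hpq
  · exact h

theorem cnt_all {x : PP P L} (hx : IsCol x) {k : ℕ} (hk : 1 ≤ k) {p : P} (hp : x.1 p = p)
    (h1 : ∀ l : L, x.2 l = l → Nat.card {q : P // x.1 q = q ∧ q ∈ l} = k)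
    (h2 : Nat.card {l : L // x.2 l = l ∧ p ∈ l} = k) :
    Nat.card {q : P // x.1 q = q} = 1 + k * (k - 1) := by
  classical
  have := Fintype.ofFinite P
  have := Fintype.ofFinite L
  let T : L → Finset P := fun l => Finset.univ.filter fun q => (x.1 q = q ∧ q ∈ l) ∧ q ≠ p
  let S : Finset L := Finset.univ.filter fun l => x.2 l = l ∧ p ∈ l
  have hS : S.card = k := by
    rw [← h2, Nat.card_eq_fintype_card, Fintype.card_subtype]
  have hT : ∀ l ∈ S, (T l).card = k - 1 := by
    intro l hl
    have hl' := (Finset.mem_filter.1 hl).2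
    have h3 : T l = (Finset.univ.filter fun q : P => x.1 q = q ∧ q ∈ l).erase p := by
      ext q
      simp only [T, Finset.mem_filter, Finset.mem_univ, true_and, Finset.mem_erase]
      exact and_comm
    have h4 := h1 l hl'.1
    rw [Nat.card_eq_fintype_card, Fintype.card_subtype] at h4
    rw [h3, Finset.card_erase_of_mem (Finset.mem_filter.2 ⟨Finset.mem_univ _, hp, hl'.2⟩), h4]
  have hF : (Finset.univ.filter fun q : P => x.1 q = q).erase p = S.biUnion T := by
    ext q
    simp only [S, T, Finset.mem_filter, Finset.mem_univ, true_and, Finset.mem_erase,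
      Finset.mem_biUnion]
    constructor
    · rintro ⟨hqp, hq⟩
      obtain ⟨l, hl, hpl, hql⟩ := InvB_line hx hp hq (Ne.symm hqp)
      exact ⟨l, ⟨hl, hpl⟩, ⟨hq, hql⟩, hqp⟩
    · rintro ⟨l, -, ⟨hq, -⟩, hqp⟩
      exact ⟨hqp, hq⟩
  have hdis : ∀ l ∈ S, ∀ m ∈ S, l ≠ m → Disjoint (T l) (T m) := by
    intro l hl m hm hlm
    rw [Finset.disjoint_left]
    intro q hql hqm
    have a1 := (Finset.mem_filter.1 hl).2
    have a2 := (Finset.mem_filter.1 hm).2
    have a3 := (Finset.mem_filter.1 hql).2
    have a4 := (Finset.mem_filter.1 hqm).2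
    rcases Nondegenerate.eq_or_eq a1.2 a3.1.2 a2.2 a4.1.2 with h | h
    · exact a3.2 h.symm
    · exact hlm h
  have hcard : ((Finset.univ.filter fun q : P => x.1 q = q).erase p).card = k * (k - 1) := by
    rw [hF, Finset.card_biUnion hdis, Finset.sum_congr rfl hT, Finset.sum_const, hS, smul_eq_mul]
  have hmem : p ∈ Finset.univ.filter fun q : P => x.1 q = q :=
    Finset.mem_filter.2 ⟨Finset.mem_univ _, hp⟩
  rw [Nat.card_eq_fintype_card, Fintype.card_subtype, ← Finset.card_erase_add_one hmem, hcard,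
    add_comm]

end Pool.Agent.H37.TR
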