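import Pool.Agent.H37.TR.InvA
import Pool.Agent.H37.TR.InvB
import Pool.Agent.H37.TR.Axc
import Pool.Agent.H37.TR.Bas

/-!
# Project TR, module Inv: an involution of a plane whose order is not a square is a perspectivity

If every fixed line contains a non-fixed point and through every fixed point there is a non-fixed line: `t = n + k` for the numbers
of fixed points on all fixed lines (`cnt_on`), and dually (`cnt_th`; the number of fixed points is the number of fixed lines:
`Pool.Agent.H12.ST.Sys.fix_eq` for `inc_sys`), so `cnt_all`, `sq_of`.  Otherwise `center_of_axis` or `axis_of_center`.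
-/

set_option autoImplicit false

open Configuration

namespace Pool.Agent.H37.TR

variable {P L : Type} [Membership P L] [Finite P] [Finite L] [ProjectivePlane P L]

/-- the number of fixed points is the number of fixed lines -/
theorem fix_card {x : PP P L} (hx : IsCol x) : Nat.card {p : P // x.1 p = p} = Nat.card {l : L // x.2 l = l} := by
  classical
  have := Fintype.ofFinite P
  have := Fintype.ofFinite L
  rw [Nat.card_eq_fintype_card, Nat.card_eq_fintype_card]
  refine (Pool.Agent.H12.ST.inc_sys P L).fix_eq x.1 x.2 fun p l => ?_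
  unfold Pool.Agent.H12.ST.inc
  by_cases h : p ∈ l
  · rw [if_pos h, if_pos ((hx p l).2 h)]
  · rw [if_neg h, if_neg (fun h2 => h ((hx p l).1 h2))]

/-- **Involutions are perspectivities.** -/
theorem inv_per {x : PP P L} (hx : IsCol x) (h2 : x * x = 1) (hn : ¬ IsSquare (ProjectivePlane.order P L)) :
    ∃ (C : P) (l : L), Per x C l := by
  by_cases hA : ∃ l : L, ∀ p : P, p ∈ l → x.1 p = p
  · obtain ⟨l, hl⟩ := hA
    obtain ⟨C, hC⟩ := center_of_axis hx hl
    exact ⟨C, l, hC⟩
  by_cases hB : ∃ C : P, ∀ m : L, C ∈ m → x.2 m = m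
  · obtain ⟨C, hC⟩ := hB
    obtain ⟨l, hl⟩ := axis_of_center hx hC
    exact ⟨C, l, hl⟩
  exfalso
  push Not at hA hB
  have h3 := fix_card hx
  have hlin : ∀ l : L, x.2 l = l → Nat.card {p : P // x.1 p = p} =
      ProjectivePlane.order P L + Nat.card {p : P // x.1 p = p ∧ p ∈ l} := by
    intro l hl
    obtain ⟨Q, hQ, hQ'⟩ := hA l
    exact cnt_on hx h2 hl hQ hQ'
  have hpt : ∀ p : P, x.1 p = p → Nat.card {l : L // x.2 l = l} =
      ProjectivePlane.order P L + Nat.card {l : L // x.2 l = l ∧ p ∈ l} := by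
    intro p hp
    obtain ⟨m, hm, hm'⟩ := hB p
    exact cnt_th hx h2 hp hm hm'
  obtain ⟨-, -, -, l₀, -⟩ := ProjectivePlane.exists_config (P := P) (L := L)
  obtain ⟨p, hp, -⟩ := ln_has hx h2 l₀
  obtain ⟨l, hl, hpl⟩ := pt_on hx h2 p
  have h4 := hpt p hp
  have h5 : 0 < Nat.card {l : L // x.2 l = l ∧ p ∈ l} := by
    have : Nonempty {l : L // x.2 l = l ∧ p ∈ l} := ⟨⟨l, hl, hpl⟩⟩
    exact Nat.card_pos
  obtain ⟨k, hk⟩ : ∃ k, k = Nat.card {l : L // x.2 l = l ∧ p ∈ l} := ⟨_, rfl⟩
  rw [← hk] at h4 h5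
  have h6 : Nat.card {q : P // x.1 q = q} = 1 + k * (k - 1) := by
    refine cnt_all hx h5 hp (fun m hm => ?_) hk.symm
    have h7 := hlin m hm
    omega
  refine hn (sq_of h5 ?_ h6)
  omega

end Pool.Agent.H37.TR
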