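import Pool.Agent.H37.TR.Defs

/-!
# Project TR, module InvA: involutions

`x * x = 1`.  `pt_on`: the line through `p` and `x p` is fixed if `x p ≠ p`; if `x p = p`: take a non-fixed point off `p`... in this case
use: some line through `p` is fixed, because a collineation which fixes `p` permutes the `order + 1` lines through `p`, or: if some
point `q ≠ p` is fixed take the line `p q`; otherwise take any `q ≠ p`, the line through `q` and `x q`, if it contains `p` done; otherwise
two such lines meet in a fixed point, which is `p`.  (Shorter: if all points are fixed everything is fixed; otherwise there is a non-fixed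
`q`; the line `q (x q)` is fixed.)  `ln_has`: dual.
`cnt_on`: `l` fixed, `Q` on `l` not fixed: every line `m ≠ l` through `Q` is not fixed (otherwise `Q` is fixed), so it contains exactly
one fixed point (`ln_has`; two fixed points would make it fixed), which is off `l` (`m ∩ l = Q`); every fixed point off `l` is on one
of these `order` lines (`ProjectivePlane.lineCount_eq`).
`cnt_th`: dual.
-/

set_option autoImplicit false

open Configuration

namespace Pool.Agent.H37.TR

variable {P L : Type} [Membership P L] [Finite P] [Finite L] [ProjectivePlane P L]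

omit [Finite P] [Finite L] in
private theorem InvA_pt {x : PP P L} (h2 : x * x = 1) (p : P) : x.1 (x.1 p) = p :=
  Equiv.congr_fun (congrArg Prod.fst h2) p

omit [Finite P] [Finite L] in
private theorem InvA_fl {x : PP P L} (hx : IsCol x) {p q : P} (hpq : p ≠ q) (hp : x.1 p = p) (hq : x.1 q = q)
    {l : L} (hpl : p ∈ l) (hql : q ∈ l) : x.2 l = l := by
  have h1 : p ∈ x.2 l := by
    have := (hx p l).2 hpl
    rwa [hp] at this
  have h3 : q ∈ x.2 l := by
    have := (hx q l).2 hql
    rwa [hq] at this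
  rcases Nondegenerate.eq_or_eq h1 h3 hpl hql with h | h
  · exact (hpq h).elim
  · exact h

omit [Finite P] [Finite L] in
private theorem InvA_sw {x : PP P L} (hx : IsCol x) (h2 : x * x = 1) {q : P} (hq : x.1 q ≠ q) {l : L} (h1 : q ∈ l)
    (h3 : x.1 q ∈ l) : x.2 l = l := by
  have h4 : x.1 q ∈ x.2 l := (hx q l).2 h1
  have h5 : q ∈ x.2 l := by
    have := (hx (x.1 q) l).2 h3
    rwa [InvA_pt h2] at this
  rcases Nondegenerate.eq_or_eq h4 h5 h3 h1 with h | h
  · exact (hq h).elim
  · exact h

omit [Finite P] [Finite L] in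
private theorem InvA_mt {x : PP P L} (hx : IsCol x) {l m : L} (hlm : l ≠ m) (hl : x.2 l = l) (hm : x.2 m = m) {p : P}
    (h1 : p ∈ l) (h3 : p ∈ m) : x.1 p = p := by
  have h4 : x.1 p ∈ l := by
    have := (hx p l).2 h1
    rwa [hl] at this
  have h5 : x.1 p ∈ m := by
    have := (hx p m).2 h3
    rwa [hm] at this
  rcases Nondegenerate.eq_or_eq h4 h1 h5 h3 with h | h
  · exact h
  · exact (hlm h).elim

private theorem InvA_third (k : L) (a b : P) : ∃ r : P, r ∈ k ∧ r ≠ a ∧ r ≠ b := by
  by_contra h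
  push Not at h
  have h1 : {p : P | p ∈ k} ⊆ {a, b} := by
    intro p hp
    by_cases hpa : p = a
    · exact Or.inl hpa
    · exact Or.inr (h p hp hpa)
  have h3 := Set.ncard_le_ncard h1 (Set.toFinite _)
  have h4 := Set.ncard_insert_le a ({b} : Set P)
  rw [Set.ncard_singleton] at h4
  have h5 := ProjectivePlane.two_lt_pointCount (P := P) k
  unfold pointCount at h5
  have h6 : Nat.card {p : P // p ∈ k} = {p : P | p ∈ k}.ncard := rfl
  omega

/-- every point is on a fixed line -/
theorem pt_on {x : PP P L} (hx : IsCol x) (h2 : x * x = 1) (p : P) : ∃ l : L, x.2 l = l ∧ p ∈ l := by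
  by_cases hp : x.1 p = p
  · by_cases hq : ∃ q : P, q ≠ p ∧ x.1 q = q
    · obtain ⟨q, hqp, hq⟩ := hq
      obtain ⟨h3, h4⟩ := HasLines.mkLine_ax (L := L) hqp
      exact ⟨HasLines.mkLine hqp, InvA_fl hx hqp hq hp h3 h4, h4⟩
    · push Not at hq
      obtain ⟨k0, -⟩ : ∃ k : L, p ∉ k := Nondegenerate.exists_line p
      obtain ⟨q, -, hqp, -⟩ := InvA_third k0 p p
      have hq1 := hq q hqp
      obtain ⟨h3, h4⟩ := HasLines.mkLine_ax (L := L) hq1
      have hm := InvA_sw hx h2 hq1 h4 h3
      by_cases hpm : p ∈ (HasLines.mkLine hq1 : L)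
      · exact ⟨_, hm, hpm⟩
      · exfalso
        -- a third point on the line through `p` and `q`
        obtain ⟨h5, h6⟩ := HasLines.mkLine_ax (L := L) hqp
        obtain ⟨r, hrk, hrp, hrq⟩ := InvA_third (HasLines.mkLine hqp : L) p q
        have hr1 := hq r hrp
        have hrm : r ∉ (HasLines.mkLine hq1 : L) := by
          intro hrm
          rcases Nondegenerate.eq_or_eq hrk h5 hrm h4 with h | h
          · exact hrq h
          · exact hpm (h ▸ h6)
        obtain ⟨h7, h8⟩ := HasLines.mkLine_ax (L := L) hr1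
        have hm' := InvA_sw hx h2 hr1 h8 h7
        have hne : (HasLines.mkLine hq1 : L) ≠ HasLines.mkLine hr1 := fun h => hrm (h ▸ h8)
        obtain ⟨h9, h10⟩ := HasPoints.mkPoint_ax (P := P) hne
        have hz := InvA_mt hx hne hm hm' h9 h10
        by_cases hzp : (HasPoints.mkPoint hne : P) = p
        · exact hpm (hzp ▸ h9)
        · exact hq _ hzp hz
  · obtain ⟨h3, h4⟩ := HasLines.mkLine_ax (L := L) hp
    exact ⟨_, InvA_sw hx h2 hp h4 h3, h4⟩

private theorem InvA_dcol {x : PP P L} (hx : IsCol x) :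
    IsCol (P := Dual L) (L := Dual P) ((x.2, x.1) : Equiv.Perm L × Equiv.Perm P) := fun l p => hx p l

private theorem InvA_dsq {x : PP P L} (h2 : x * x = 1) :
    ((x.2, x.1) : Equiv.Perm L × Equiv.Perm P) * (x.2, x.1) = 1 :=
  Prod.ext (congrArg Prod.snd h2) (congrArg Prod.fst h2)

/-- every line has a fixed point -/
theorem ln_has {x : PP P L} (hx : IsCol x) (h2 : x * x = 1) (l : L) : ∃ p : P, x.1 p = p ∧ p ∈ l :=
  pt_on (P := Dual L) (L := Dual P) (x := (x.2, x.1)) (InvA_dcol hx) (InvA_dsq h2) l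

theorem cnt_on {x : PP P L} (hx : IsCol x) (h2 : x * x = 1) {l : L} (hl : x.2 l = l) {Q : P} (hQ : Q ∈ l) (hQ' : x.1 Q ≠ Q) :
    Nat.card {p : P // x.1 p = p} = ProjectivePlane.order P L + Nat.card {p : P // x.1 p = p ∧ p ∈ l} := by
  have hsplit : Nat.card {p : P // x.1 p = p} = Nat.card {p : P // x.1 p = p ∧ p ∈ l} +
      Nat.card {p : P // x.1 p = p ∧ p ∉ l} := by
    have h := Set.ncard_inter_add_ncard_diff_eq_ncard {p : P | x.1 p = p} {p : P | p ∈ l} (Set.toFinite _)
    exact h.symm
  have hlines : Nat.card {m : L // Q ∈ m ∧ m ≠ l} = ProjectivePlane.order P L := by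
    have h3 := ProjectivePlane.lineCount_eq (L := L) Q
    unfold lineCount at h3
    have h4 : Nat.card {m : L // Q ∈ m} = {m : L | Q ∈ m}.ncard := rfl
    have h5 : Nat.card {m : L // Q ∈ m ∧ m ≠ l} = ({m : L | Q ∈ m} \ {l}).ncard := rfl
    have h6 := Set.ncard_diff_singleton_of_mem (s := {m : L | Q ∈ m}) (a := l) hQ
    rw [h5, h6, ← h4, h3, Nat.add_sub_cancel]
  have hne : ∀ p : {p : P // x.1 p = p ∧ p ∉ l}, Q ≠ p.1 :=
    fun p h => p.2.2 (by have h0 := hQ; rw [h] at h0; exact h0)
  have hmem : ∀ p : {p : P // x.1 p = p ∧ p ∉ l}, Q ∈ (HasLines.mkLine (hne p) : L) ∧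
      (HasLines.mkLine (hne p) : L) ≠ l := by
    intro p
    obtain ⟨h3, h4⟩ := HasLines.mkLine_ax (L := L) (hne p)
    exact ⟨h3, fun h => p.2.2 (by rw [h] at h4; exact h4)⟩
  have hbij : Function.Bijective (fun p : {p : P // x.1 p = p ∧ p ∉ l} =>
      (⟨HasLines.mkLine (hne p), hmem p⟩ : {m : L // Q ∈ m ∧ m ≠ l})) := by
    constructor
    · intro p p' h
      have h3 : (HasLines.mkLine (hne p) : L) = HasLines.mkLine (hne p') := congrArg Subtype.val h
      by_contra hpp
      have hpp' : p.1 ≠ p'.1 := fun h => hpp (Subtype.ext h)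
      have h4 := (HasLines.mkLine_ax (L := L) (hne p)).2
      have h5 := (HasLines.mkLine_ax (L := L) (hne p')).2
      rw [← h3] at h5
      have h6 := InvA_fl hx hpp' p.2.1 p'.2.1 h4 h5
      exact hQ' (InvA_mt hx (hmem p).2 h6 hl (hmem p).1 hQ)
    · rintro ⟨m, hQm, hml⟩
      obtain ⟨p, hp, hpm⟩ := ln_has hx h2 m
      have hpl : p ∉ l := by
        intro hpl
        rcases Nondegenerate.eq_or_eq hpm hQm hpl hQ with h | h
        · exact hQ' (h ▸ hp)
        · exact hml h
      refine ⟨⟨p, hp, hpl⟩, Subtype.ext ?_⟩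
      obtain ⟨h3, h4⟩ := HasLines.mkLine_ax (L := L) (hne ⟨p, hp, hpl⟩)
      rcases Nondegenerate.eq_or_eq h3 h4 hQm hpm with h | h
      · exact (hne ⟨p, hp, hpl⟩ h).elim
      · exact h
  rw [hsplit, ← hlines, Nat.card_congr (Equiv.ofBijective _ hbij), add_comm]

theorem cnt_th {x : PP P L} (hx : IsCol x) (h2 : x * x = 1) {p : P} (hp : x.1 p = p) {m : L} (hm : p ∈ m) (hm' : x.2 m ≠ m) :
    Nat.card {l : L // x.2 l = l} = ProjectivePlane.order P L + Nat.card {l : L // x.2 l = l ∧ p ∈ l} := by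
  have h := cnt_on (P := Dual L) (L := Dual P) (x := (x.2, x.1)) (InvA_dcol hx) (InvA_dsq h2) (l := p) hp (Q := m)
    hm hm'
  rw [ProjectivePlane.Dual.order] at h
  exact h

end Pool.Agent.H37.TR
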