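import Mathlib

/-!
# Project TR, module Man: Mann's condition for squares and prime powers

`n = r ^ k`: a prime `p` with odd exponent in `n` is `r`, `k` is odd; `q` divides `n ^ 2 + n + 1`, so `r ^ (3 k) = 1` modulo `q`
(`n ^ 3 - 1 = (n - 1) (n ^ 2 + n + 1)`): the order of `r` divides the odd number `3 k`.  A square has only even exponents.
-/

set_option autoImplicit false

namespace Pool.Agent.H37.TR

theorem man_sq {n : ℕ} (h : IsSquare n) (p q : ℕ) (hp : p.Prime) (hq : q.Prime) (h1 : Odd (padicValNat p n))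
    (h2 : Odd (padicValNat q (n ^ 2 + n + 1))) : Odd (orderOf (p : ZMod q)) := by
  exfalso
  obtain ⟨m, rfl⟩ := h
  have := Fact.mk hp
  rcases Nat.eq_zero_or_pos m with hm | hm
  · rw [hm, Nat.mul_zero, padicValNat_zero_right] at h1
    exact absurd h1 (by decide)
  · rw [padicValNat.mul hm.ne' hm.ne'] at h1
    exact (Nat.not_odd_iff_even.2 ⟨_, rfl⟩) h1

theorem man_pp {n r k : ℕ} (hr : r.Prime) (h : n = r ^ k) (p q : ℕ) (hp : p.Prime) (hq : q.Prime)
    (h1 : Odd (padicValNat p n)) (h2 : Odd (padicValNat q (n ^ 2 + n + 1))) : Odd (orderOf (p : ZMod q)) := by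
  have := Fact.mk hp
  have := Fact.mk hq
  have := Fact.mk hr
  have hpn : p ∣ n := by
    by_contra h3
    rw [padicValNat.eq_zero_of_not_dvd h3] at h1
    exact absurd h1 (by decide)
  have hpr : p = r := by
    rw [h] at hpn
    exact (Nat.prime_dvd_prime_iff_eq hp hr).1 (hp.dvd_of_dvd_pow hpn)
  have hk : Odd k := by
    rw [hpr, h, padicValNat.prime_pow] at h1
    exact h1
  have hqn : q ∣ n ^ 2 + n + 1 := by
    by_contra h3
    rw [padicValNat.eq_zero_of_not_dvd h3] at h2
    exact absurd h2 (by decide)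
  have h4 : ((n : ZMod q)) ^ 2 + (n : ZMod q) + 1 = 0 := by
    have h5 := (ZMod.natCast_eq_zero_iff (n ^ 2 + n + 1) q).2 hqn
    push_cast at h5
    exact h5
  have h6 : (p : ZMod q) ^ (3 * k) = 1 := by
    have h7 : (p : ZMod q) ^ k = (n : ZMod q) := by
      rw [h, hpr]
      push_cast
      rfl
    rw [Nat.mul_comm, pow_mul, h7]
    linear_combination ((n : ZMod q) - 1) * h4
  have h8 : Odd (3 * k) := Odd.mul (by decide) hk
  exact Odd.of_dvd_nat h8 (orderOf_dvd_of_pow_eq_one h6)

end Pool.Agent.H37.TR
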