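import Pool.Agent.H12.ST.Pln

/-!
(D3): a polarity of a finite projective plane has an absolute point (Baer).

`A` = incidence matrix of `(C, π E)`, symmetric, `A ^ 2 = n I + J`, `A J = J A = (n + 1) J`. With
`E = J / N`, `A' = A - (n + 1) E`: `A' ^ 2 = n (I - E)`, `A' E = E A' = 0`, so `(I - E ± A' / √n) / 2` are
idempotents, with traces `k`, `l` natural numbers, and `trace A' = √n (k - l)`. If there is no absolute
point, `trace A' = - (n + 1)`, so `(n + 1) ^ 2 = n (k - l) ^ 2`, and `n` divides `1`.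
-/

set_option autoImplicit false

open Configuration Matrix

namespace Pool.Agent.H37.TR

private theorem pol_idem {ι : Type} [Fintype ι] [DecidableEq ι] {M : Matrix ι ι ℝ}
    (h : M * M = M) : ∃ k : ℕ, M.trace = k := by
  have h1 : IsIdempotentElem (Matrix.toLin' M) := by
    show Matrix.toLin' M * Matrix.toLin' M = Matrix.toLin' M
    rw [Module.End.mul_eq_comp, ← Matrix.toLin'_mul, h]
  refine ⟨Module.finrank ℝ (LinearMap.range (Matrix.toLin' M)), ?_⟩
  rw [← (LinearMap.IsIdempotentElem.isProj_range _ h1).trace, Matrix.trace_toLin'_eq]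

private theorem pol_alg {ι : Type} [Fintype ι] [DecidableEq ι] {A J : Matrix ι ι ℝ} {n N : ℝ}
    (hn : 0 < n) (hN : N = n ^ 2 + n + 1) (hA : A * A = n • (1 : Matrix ι ι ℝ) + J)
    (hAJ : A * J = (n + 1) • J) (hJA : J * A = (n + 1) • J) (hJJ : J * J = N • J)
    (htA : A.trace = 0) (htJ : J.trace = N) : ∃ z : ℤ, (n + 1) ^ 2 = n * (z : ℝ) ^ 2 := by
  have hN0 : 0 < N := by rw [hN]; positivity
  obtain ⟨r, hr⟩ : ∃ r : ℝ, r = Real.sqrt n := ⟨_, rfl⟩
  have hr0 : 0 < r := by rw [hr]; exact Real.sqrt_pos.2 hn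
  have hr2 : r * r = n := by rw [hr]; exact Real.mul_self_sqrt hn.le
  obtain ⟨E, hE⟩ : ∃ E : Matrix ι ι ℝ, E = N⁻¹ • J := ⟨_, rfl⟩
  have hJE : J = N • E := by rw [hE, smul_smul, mul_inv_cancel₀ hN0.ne', one_smul]
  have hEE : E * E = E := by
    rw [hE, smul_mul_smul_comm, hJJ, smul_smul]
    congr 1
    field_simp
  have hAE : A * E = (n + 1) • E := by
    rw [hE, mul_smul_comm, hAJ, smul_comm]
  have hEA : E * A = (n + 1) • E := by
    rw [hE, smul_mul_assoc, hJA, smul_comm]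
  obtain ⟨B, hB⟩ : ∃ B : Matrix ι ι ℝ, B = A - (n + 1) • E := ⟨_, rfl⟩
  have hBE : B * E = 0 := by
    rw [hB, sub_mul, hAE, smul_mul_assoc, hEE, sub_self]
  have hEB : E * B = 0 := by
    rw [hB, mul_sub, hEA, mul_smul_comm, hEE, sub_self]
  have hBB : B * B = n • (1 - E) := by
    have h1 : B * B = A * B - (n + 1) • (E * B) := by
      nth_rewrite 1 [hB]
      rw [sub_mul, smul_mul_assoc]
    rw [h1, hEB, smul_zero, sub_zero, hB, mul_sub, mul_smul_comm, hAE, hA, hJE, smul_smul, smul_sub,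
      hN]
    module
  have hP : ∀ s : ℝ, s * s * n = 1 → ∃ k : ℕ, ((1 / 2 : ℝ) • ((1 - E) + s • B)).trace = k := by
    intro s hs
    apply pol_idem
    have h1 : (1 - E) * (1 - E) = 1 - E := by
      rw [mul_sub, mul_one, sub_mul, one_mul, hEE, sub_self, sub_zero]
    have h2 : (1 - E) * B = B := by rw [sub_mul, hEB, one_mul, sub_zero]
    have h3 : B * (1 - E) = B := by rw [mul_sub, hBE, mul_one, sub_zero]
    rw [smul_mul_smul_comm, add_mul, mul_add, mul_add, h1, mul_smul_comm, h2, smul_mul_assoc, h3,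
      smul_mul_smul_comm, hBB, smul_smul, hs, one_smul]
    module
  obtain ⟨k, hk⟩ := hP r⁻¹ (by rw [← hr2]; field_simp)
  obtain ⟨l, hl⟩ := hP (-r⁻¹) (by rw [← hr2]; field_simp)
  have htE : E.trace = 1 := by
    rw [hE, Matrix.trace_smul, htJ, smul_eq_mul, inv_mul_cancel₀ hN0.ne']
  have htB : B.trace = -(n + 1) := by
    rw [hB, Matrix.trace_sub, Matrix.trace_smul, htA, htE, smul_eq_mul]
    ring
  refine ⟨(k : ℤ) - l, ?_⟩
  simp only [Matrix.trace_smul, Matrix.trace_add, smul_eq_mul, htB] at hk hl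
  have h4 : r⁻¹ * (n + 1) = -((k : ℝ) - l) := by
    rw [← hk, ← hl]
    ring
  have h5 : n + 1 = -((k : ℝ) - l) * r := by
    rw [← h4]
    field_simp
  push_cast
  rw [h5, ← hr2]
  ring

/-- A polarity of a finite projective plane has an absolute point. -/
theorem absolute_point {P L : Type} [Membership P L] [Finite P] [Finite L] [ProjectivePlane P L]
    (π : P → L) (hinj : Function.Injective π) (hsym : ∀ C E, C ∈ π E → E ∈ π C) :
    ∃ C, C ∈ π C := by
  classical
  by_contra hcon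
  push Not at hcon
  have := Fintype.ofFinite P
  have := Fintype.ofFinite L
  obtain ⟨n, hn⟩ : ∃ n : ℕ, n = ProjectivePlane.order P L := ⟨_, rfl⟩
  have hn1 : 1 < n := by rw [hn]; exact ProjectivePlane.one_lt_order P L
  have hcard : Fintype.card P = n ^ 2 + n + 1 := by rw [hn]; exact ProjectivePlane.card_points P L
  have hline : ∀ l : L, ∑ C : P, (if C ∈ l then (1 : ℝ) else 0) = n + 1 := by
    intro l
    rw [Finset.sum_ite, Finset.sum_const_zero, add_zero, Finset.sum_const, nsmul_eq_mul, mul_one]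
    have h1 := ProjectivePlane.pointCount_eq P l
    unfold pointCount at h1
    rw [Nat.card_eq_fintype_card, Fintype.card_subtype, ← hn] at h1
    rw [h1]
    push_cast
    ring
  have htwo : ∀ l m : L, l ≠ m →
      ∑ C : P, (if C ∈ l then (1 : ℝ) else 0) * (if C ∈ m then (1 : ℝ) else 0) = 1 := by
    intro l m hlm
    obtain ⟨p, hp, hu⟩ := HasPoints.existsUnique_point P L l m hlm
    rw [Finset.sum_eq_single p]
    · rw [if_pos hp.1, if_pos hp.2, mul_one]
    · intro q _ hq
      by_cases h1 : q ∈ l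
      · by_cases h2 : q ∈ m
        · exact absurd (hu q ⟨h1, h2⟩) hq
        · rw [if_neg h2, mul_zero]
      · rw [if_neg h1, zero_mul]
    · intro h
      exact absurd (Finset.mem_univ p) h
  have hiff : ∀ C E, (C ∈ π E ↔ E ∈ π C) := fun C E => ⟨hsym C E, hsym E C⟩
  obtain ⟨A, hA⟩ : ∃ A : Matrix P P ℝ, ∀ C E, A C E = if C ∈ π E then (1 : ℝ) else 0 :=
    ⟨Matrix.of fun C E => if C ∈ π E then (1 : ℝ) else 0, fun _ _ => rfl⟩
  obtain ⟨J, hJ⟩ : ∃ J : Matrix P P ℝ, ∀ C E, J C E = 1 := ⟨Matrix.of fun _ _ => 1, fun _ _ => rfl⟩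
  suffices hmain : ∃ z : ℤ, ((n : ℝ) + 1) ^ 2 = n * (z : ℝ) ^ 2 by
    obtain ⟨z, hz⟩ := hmain
    have h1 : ((n : ℤ) + 1) ^ 2 = n * z ^ 2 := by exact_mod_cast hz
    have h2 : (n : ℤ) ∣ 1 := by
      have h3 : (n : ℤ) ∣ ((n : ℤ) + 1) ^ 2 := ⟨z ^ 2, h1⟩
      have h4 : ((n : ℤ) + 1) ^ 2 = n * (n + 2) + 1 := by ring
      rw [h4] at h3
      exact (dvd_add_right (dvd_mul_right _ _)).1 h3
    have h5 := Int.le_of_dvd one_pos h2
    omega
  refine pol_alg (A := A) (J := J) (n := n) (N := (n : ℝ) ^ 2 + n + 1)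
    (by exact_mod_cast (by omega : 0 < n)) rfl ?_ ?_ ?_ ?_ ?_ ?_
  · ext C E
    rw [Matrix.mul_apply, Matrix.add_apply, Matrix.smul_apply, hJ, Matrix.one_apply]
    have h1 : ∑ F, A C F * A F E = ∑ F, (if F ∈ π C then (1 : ℝ) else 0) *
        (if F ∈ π E then (1 : ℝ) else 0) := by
      refine Finset.sum_congr rfl fun F _ => ?_
      rw [hA, hA]
      simp only [hiff C F]
    rw [h1]
    by_cases h : C = E
    · subst h
      rw [if_pos rfl, smul_eq_mul, mul_one, ← hline (π C)]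
      refine Finset.sum_congr rfl fun F _ => ?_
      split_ifs <;> simp
    · rw [if_neg h, smul_zero, zero_add]
      exact htwo _ _ fun h' => h (hinj h')
  · ext C E
    rw [Matrix.mul_apply, Matrix.smul_apply, hJ, smul_eq_mul, mul_one, ← hline (π C)]
    refine Finset.sum_congr rfl fun F _ => ?_
    rw [hA, hJ, mul_one]
    simp only [hiff C F]
  · ext C E
    rw [Matrix.mul_apply, Matrix.smul_apply, hJ, smul_eq_mul, mul_one, ← hline (π E)]
    refine Finset.sum_congr rfl fun F _ => ?_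
    rw [hA, hJ, one_mul]
  · ext C E
    rw [Matrix.mul_apply, Matrix.smul_apply, hJ, smul_eq_mul, mul_one]
    simp only [hJ, mul_one, Finset.sum_const, Finset.card_univ, hcard, nsmul_eq_mul]
    push_cast
    ring
  · unfold Matrix.trace
    refine Finset.sum_eq_zero fun C _ => ?_
    rw [Matrix.diag_apply, hA, if_neg (hcon C)]
  · unfold Matrix.trace
    simp only [Matrix.diag_apply, hJ, Finset.sum_const, Finset.card_univ, hcard, nsmul_eq_mul]
    push_cast
    ring

theorem no_polarity {P L : Type} [Membership P L] [Finite P] [Finite L] [ProjectivePlane P L]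
    (_hn : ¬ IsSquare (ProjectivePlane.order P L)) {π : P → L} (h1 : Function.Injective π)
    (h2 : ∀ X, X ∉ π X) (h3 : ∀ X Y, X ∈ π Y → Y ∈ π X) : False := by
  obtain ⟨C, hC⟩ := absolute_point π h1 h3
  exact h2 C hC

end Pool.Agent.H37.TR
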