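import Pool.Agent.H37.TR.Inv
import Pool.Agent.H37.TR.El
import Pool.Agent.H37.TR.HoB
import Pool.Agent.H37.TR.Pol
import Pool.Agent.H37.TR.Cv
import Pool.Agent.H37.TR.Man

/-!
# Project TR: the theorem
-/

set_option autoImplicit false

open Configuration

namespace Pool.Agent.H37.TR

variable {P L : Type} [Membership P L] [Finite P] [Finite L] [ProjectivePlane P L]

/-- a point-transitive group which contains an involution, the order is not a square -/
theorem even_pt {G : Subgroup (PP P L)} (hG : PT G) {x : PP P L} (hx : x ∈ G) (h1 : x ≠ 1) (h2 : x * x = 1)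
    (hn : ¬ IsSquare (ProjectivePlane.order P L)) : ∃ p k : ℕ, p.Prime ∧ ProjectivePlane.order P L = p ^ k := by
  by_cases hE : NoEl G
  · exfalso
    obtain ⟨C, l, h⟩ := inv_per (hG.col x hx) h2 hn
    by_cases hC : C ∈ l
    · exact h1 (hE x hx C l hC h)
    · obtain ⟨π, hπ1, hπ2, hπ3⟩ := polarity hG hE ⟨hx, h1, h2, hC, h⟩
      exact no_polarity hn hπ1 hπ2 hπ3
  · exact el_main hG hE

/-- **The order of a plane with a point-transitive group with an involution.** -/
theorem even_trans (G : Type) [Group G] [MulAction G P] [MulAction G L]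
    (hm : ∀ (g : G) (p : P) (l : L), g • p ∈ g • l ↔ p ∈ l) (ht : ∀ p q : P, ∃ g : G, g • p = q)
    {g : G} (h1 : ∃ p : P, g • p ≠ p) (h2 : ∀ p : P, g • g • p = p) (hn : ¬ IsSquare (ProjectivePlane.order P L)) :
    ∃ p k : ℕ, p.Prime ∧ ProjectivePlane.order P L = p ^ k := by
  obtain ⟨G', x, hG', hx, hx1, hx2⟩ := exists_pt (L := L) G hm ht h1 h2
  exact even_pt hG' hx hx1 hx2 hn

/-- Mann's condition -/
theorem even_mann (G : Type) [Group G] [MulAction G P] [MulAction G L]
    (hm : ∀ (g : G) (p : P) (l : L), g • p ∈ g • l ↔ p ∈ l) (ht : ∀ p q : P, ∃ g : G, g • p = q)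
    {g : G} (h1 : ∃ p : P, g • p ≠ p) (h2 : ∀ p : P, g • g • p = p) (p q : ℕ) (hp : p.Prime) (hq : q.Prime)
    (h3 : Odd (padicValNat p (ProjectivePlane.order P L)))
    (h4 : Odd (padicValNat q (ProjectivePlane.order P L ^ 2 + ProjectivePlane.order P L + 1))) :
    Odd (orderOf (p : ZMod q)) := by
  by_cases hn : IsSquare (ProjectivePlane.order P L)
  · exact man_sq hn p q hp hq h3 h4
  · obtain ⟨r, k, hr, h⟩ := even_trans G hm ht h1 h2 hn
    exact man_pp hr h p q hp hq h3 h4

end Pool.Agent.H37.TR
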